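import Pool.Agent.Run7.h609.CW.Shift

/-!
# Correlations of all orders in every weight `|R|²` (helper609)
-/

set_option linter.unusedVariables false
set_option maxHeartbeats 4000000

open Complex Filter Topology Set MeasureTheory
open scoped BigOperators ComplexConjugate

namespace Pool.Agent.Run7.h609.CW

open H370 hiding pt
open TC Pool.Agent.N802.U Pool.Agent.N802 Pool.Agent.N802.WD
open Pool.Agent.N845.U2 (cnt cnt_nonneg cnt_int pts_lower)
open Pool.Agent.N802.U.Sharpaux Pool.Agent.N802.U.Directaux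

/-- the values at the zeros and the means around them -/
theorem errB {F : ℂ → ℂ} {q : ℝ} {c : ℂ → ℝ} (hsharp : S_sharpD F q c) (ε : ℝ) (hε : 0 < ε) (hε1 : ε < 1) :
    ∃ H0 : ℝ, 0 < H0 ∧ ∀ H2 : ℝ, H0 ≤ H2 → ∃ δ T0 : ℝ, 0 < δ ∧ 10 ≤ T0 ∧ ∀ T : ℝ, T0 ≤ T →
    ∀ h : ℝ, h = H2 / Real.log T → ∀ K : ℝ, T ^ (1 - δ) ≤ K → K ≤ T / 2 → ∀ S : Finset ℕ, Len S (T ^ δ) →
    ∀ r : ℕ → ℂ, ∑ s ∈ Zf F T (T + K), (mult F s : ℝ) * |‖RP S r s.im‖ ^ 2 - Mh S r h s.im| ≤
      ε * (K / (2 * Real.pi) * Real.log T * w1 S r) := by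
  classical
  obtain ⟨δs, H0, Ts, hδs, hH0, hTs, HS⟩ := hsharp (ε / 4) (by linarith) (by linarith)
  refine ⟨H0, hH0, fun H2 hH2 => ?_⟩
  have hH20 : 0 < H2 := by linarith
  obtain ⟨δ, hδ0, hδ1, hδ2⟩ : ∃ δ : ℝ, 0 < δ ∧ δ ≤ δs ∧ H2 * δ ≤ ε / 64 := by
    refine ⟨min δs (ε / 64 / H2), lt_min hδs (by positivity), min_le_left _ _, ?_⟩
    calc H2 * min δs (ε / 64 / H2) ≤ H2 * (ε / 64 / H2) :=
          mul_le_mul_of_nonneg_left (min_le_right _ _) hH20.le
      _ = ε / 64 := by field_simp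
  have ev : ∀ᶠ T : ℝ in atTop, 1 ≤ Real.log T ∧ H2 / δs ≤ Real.log T :=
    (Real.tendsto_log_atTop.eventually_ge_atTop _).and
      (Real.tendsto_log_atTop.eventually_ge_atTop _)
  obtain ⟨T1, hT1⟩ := eventually_atTop.1 ev
  refine ⟨δ, max Ts T1, hδ0, hTs.trans (le_max_left _ _), ?_⟩
  intro T hT h hh K hK1 hK2 S hS r
  obtain ⟨hL1, hLH⟩ := hT1 T ((le_max_right _ _).trans hT)
  have hTT : Ts ≤ T := (le_max_left _ _).trans hT
  have hT0 : 0 < T := by linarith
  have hT1' : 1 ≤ T := by linarith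
  set L := Real.log T with hL
  have hL0 : 0 < L := by linarith
  set Y := δ * L with hY
  have hY0 : 0 < Y := by positivity
  have hSN : Len S (Real.exp Y) := by
    intro k hk
    refine ⟨(hS k hk).1, (hS k hk).2.trans ?_⟩
    rw [Real.rpow_def_of_pos hT0, hY, mul_comm δ L]
  have hh0 : 0 < h := by rw [hh]; positivity
  have hhY : h * Y ≤ ε / 64 := by
    have : h * Y = H2 * δ := by rw [hh, hY]; field_simp
    rw [this]
    exact hδ2
  have c1 : H0 / L ≤ h := by
    rw [hh]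
    exact div_le_div_of_nonneg_right hH2 hL0.le
  have c2 : h ≤ δs := by
    rw [hh, div_le_iff₀ hL0]
    rw [div_le_iff₀ hδs] at hLH
    linarith
  have c4 : T ^ (1 - δs) ≤ K :=
    (Real.rpow_le_rpow_of_exponent_le hT1' (by linarith)).trans hK1
  have c5 : Len S (T ^ δs) := fun k hk => ⟨(hS k hk).1, (hS k hk).2.trans
    (Real.rpow_le_rpow_of_exponent_le hT1' hδ1)⟩
  have M1 := HS T hTT h c1 c2 K c4 hK2 S c5 r
  have M2 := (HS T hTT h c1 c2 K c4 hK2 S c5 (dr r)).2.1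
  set w := w1 S r with hw
  have hw0 : 0 ≤ w := Pool.Agent.N802.w1_nonneg S r
  have hK0 : 0 < K := lt_of_lt_of_le (Real.rpow_pos_of_pos hT0 _) hK1
  set Q := K / (2 * Real.pi) * L with hQ
  have hQ0 : 0 < Q := by
    rw [hQ]
    positivity
  set Z := Zf F T (T + K) with hZ
  set er : ℂ → ℝ := fun s => 2 * h * (Y * Mh S r h s.im + Mh S (dr r) h s.im / Y) with her
  have hpt : ∀ s : ℂ, |‖RP S r s.im‖ ^ 2 - Mh S r h s.im| ≤ er s := fun s =>
    Directaux.point S r hh0 hY0 s.im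
  have e4 : 0 ≤ Q * w := by positivity
  have e0 : ∑ s ∈ Z, (mult F s : ℝ) * |‖RP S r s.im‖ ^ 2 - Mh S r h s.im| ≤ ∑ s ∈ Z, (mult F s : ℝ) * er s :=
    Finset.sum_le_sum fun s _ => mul_le_mul_of_nonneg_left (hpt s) (Nat.cast_nonneg _)
  refine e0.trans ?_
  have e1 : ∑ s ∈ Z, (mult F s : ℝ) * er s =
      2 * h * (Y * (∑ s ∈ Z, (mult F s : ℝ) * Mh S r h s.im) +
        (∑ s ∈ Z, (mult F s : ℝ) * Mh S (dr r) h s.im) / Y) := by
    rw [Finset.mul_sum, Finset.sum_div, ← Finset.sum_add_distrib, Finset.mul_sum]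
    refine Finset.sum_congr rfl fun s _ => ?_
    simp only [her]
    ring
  rw [e1]
  have e2 : (∑ s ∈ Z, (mult F s : ℝ) * Mh S (dr r) h s.im) / Y ≤
      Y * ((1 + ε / 4) * (Q * w)) := by
    rw [div_le_iff₀ hY0]
    have e3 := w1_dr (r := r) hSN
    have e4 : (1 + ε / 4) * (Q * w1 S (dr r)) ≤ (1 + ε / 4) * (Q * (Y ^ 2 * w)) :=
      mul_le_mul_of_nonneg_left (mul_le_mul_of_nonneg_left e3 hQ0.le) (by positivity)
    refine (M2.trans e4).trans (le_of_eq ?_)
    ring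
  have e5 : Y * (∑ s ∈ Z, (mult F s : ℝ) * Mh S r h s.im) ≤
      Y * ((1 + ε / 4) * (Q * w)) := mul_le_mul_of_nonneg_left M1.2.1 hY0.le
  have e6 := mul_le_mul_of_nonneg_left (add_le_add e5 e2) (show 0 ≤ 2 * h by positivity)
  refine e6.trans ?_
  have e7 : 2 * h * (Y * ((1 + ε / 4) * (Q * w)) + Y * ((1 + ε / 4) * (Q * w))) =
      4 * (h * Y) * (1 + ε / 4) * (Q * w) := by ring
  rw [e7]
  refine mul_le_mul_of_nonneg_right ?_ e4
  have e8 : 4 * (h * Y) * (1 + ε / 4) ≤ 4 * (ε / 64) * (1 + ε / 4) := by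
    have : 0 ≤ 1 + ε / 4 := by linarith
    gcongr
  nlinarith

/-- a product of numbers in `[0, 1]` -/
lemma prod_ge {ι : Type*} (s : Finset ι) (a : ι → ℝ) (h0 : ∀ i ∈ s, 0 ≤ a i) (h1 : ∀ i ∈ s, a i ≤ 1) :
    1 - ∑ i ∈ s, (1 - a i) ≤ ∏ i ∈ s, a i ∧ 0 ≤ ∏ i ∈ s, a i ∧ ∏ i ∈ s, a i ≤ 1 := by
  classical
  induction s using Finset.induction_on with
  | empty => simp
  | insert i s hi ih =>
    obtain ⟨g1, g2, g3⟩ := ih (fun j hj => h0 j (Finset.mem_insert_of_mem hj))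
      (fun j hj => h1 j (Finset.mem_insert_of_mem hj))
    have a0 := h0 i (Finset.mem_insert_self _ _)
    have a1 := h1 i (Finset.mem_insert_self _ _)
    rw [Finset.sum_insert hi, Finset.prod_insert hi]
    refine ⟨?_, mul_nonneg a0 g2, mul_le_one₀ a1 g2 g3⟩
    nlinarith

/-- the average of truncated counts -/
noncomputable def av (Z : Finset ℂ) (c : ℂ → ℝ) (h G : ℝ) (n : ℕ) (u : ℕ → ℝ) (t : ℝ) : ℝ :=
  (∑ i ∈ Finset.range n, min (cnt Z c h (t + u i)) G / G) / n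

lemma av_nonneg {Z : Finset ℂ} {c : ℂ → ℝ} (hc : ∀ s, 0 ≤ c s) {h G : ℝ} (hG : 0 < G) (n : ℕ) (u : ℕ → ℝ) (t : ℝ) :
    0 ≤ av Z c h G n u t := by
  unfold av
  apply div_nonneg _ (Nat.cast_nonneg _)
  exact Finset.sum_nonneg fun i _ => div_nonneg (le_min (cnt_nonneg hc h _) hG.le) hG.le

lemma av_le_one {Z : Finset ℂ} {c : ℂ → ℝ} {h G : ℝ} (hG : 0 < G) {n : ℕ} (hn : 0 < n) (u : ℕ → ℝ) (t : ℝ) :
    av Z c h G n u t ≤ 1 := by
  unfold av
  have hn' : (0 : ℝ) < n := by exact_mod_cast hn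
  rw [div_le_one hn']
  calc ∑ i ∈ Finset.range n, min (cnt Z c h (t + u i)) G / G ≤ ∑ i ∈ Finset.range n, (1 : ℝ) := by
        refine Finset.sum_le_sum fun i _ => ?_
        rw [div_le_one hG]
        exact min_le_right _ _
    _ = n := by simp

lemma av_meas (Z : Finset ℂ) (c : ℂ → ℝ) (h G : ℝ) (n : ℕ) (u : ℕ → ℝ) : Measurable (av Z c h G n u) := by
  unfold av
  apply Measurable.div_const
  apply Finset.measurable_sum
  intro i _
  exact (((cnt_meas Z c h).comp (measurable_id.add_const (u i))).min measurable_const).div_const _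

lemma av_int {Z : Finset ℂ} {c : ℂ → ℝ} (hc : ∀ s, 0 ≤ c s) {h G : ℝ} (hG : 0 < G) {n : ℕ} (hn : 0 < n) (u : ℕ → ℝ)
    {f : ℝ → ℝ} (hf : Continuous f) {a b Q : ℝ}
    (hQ : ∀ i < n, Q ≤ ∫ t in a..b, f t * (min (cnt Z c h (t + u i)) G / G)) :
    Q ≤ ∫ t in a..b, f t * av Z c h G n u t := by
  have hn' : (0 : ℝ) < n := by exact_mod_cast hn
  have hi : ∀ i, IntervalIntegrable (fun t => f t * (min (cnt Z c h (t + u i)) G / G)) volume a b := by
    intro i
    refine wint hf ?_ (fun t => ?_) _ _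
    · exact (((cnt_meas Z c h).comp (measurable_id.add_const (u i))).min measurable_const).div_const _
    · have h1 : 0 ≤ cnt Z c h (t + u i) := cnt_nonneg hc h (t + u i)
      rw [abs_of_nonneg (div_nonneg (le_min h1 hG.le) hG.le), div_le_one hG]
      exact min_le_right _ _
  have h1 : ∫ t in a..b, f t * av Z c h G n u t =
      (∑ i ∈ Finset.range n, ∫ t in a..b, f t * (min (cnt Z c h (t + u i)) G / G)) / n := by
    rw [← intervalIntegral.integral_finsetSum (fun i _ => hi i), ← intervalIntegral.integral_div]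
    refine intervalIntegral.integral_congr fun t _ => ?_
    change f t * ((∑ i ∈ Finset.range n, min (cnt Z c h (t + u i)) G / G) / n) =
      (∑ i ∈ Finset.range n, f t * (min (cnt Z c h (t + u i)) G / G)) / n
    rw [← Finset.mul_sum, mul_div_assoc]
  rw [h1, le_div_iff₀ hn']
  calc Q * n = ∑ i ∈ Finset.range n, Q := by simp [mul_comm]
    _ ≤ _ := Finset.sum_le_sum fun i hi => hQ i (Finset.mem_range.1 hi)

/-- the weighted number of the points of `Z` in the open interval `(a, b)` -/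
noncomputable def Nw (Z : Finset ℂ) (c : ℂ → ℝ) (a b : ℝ) : ℝ :=
  ∑ y ∈ Z, c y * (if a < y.im ∧ y.im < b then 1 else 0)

lemma Nw_nonneg {Z : Finset ℂ} {c : ℂ → ℝ} (hc : ∀ s, 0 ≤ c s) (a b : ℝ) : 0 ≤ Nw Z c a b := by
  unfold Nw
  refine Finset.sum_nonneg fun y _ => mul_nonneg (hc y) ?_
  split_ifs <;> norm_num

/-- disjoint windows in an interval -/
lemma windows {Z : Finset ℂ} {c : ℂ → ℝ} (hc : ∀ s, 0 ≤ c s) {h e A B t x : ℝ} (hh : 0 < h) (he : 0 < e)
    (htx : |t - x| ≤ h) (N : ℕ) (hN : 2 * h * (1 + e) * N ≤ B - A - 6 * h) :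
    ∑ i ∈ Finset.range (N + 1), cnt Z c h (t + (A + 3 * h + 2 * h * (1 + e) * i)) ≤ Nw Z c (x + A) (x + B) := by
  classical
  unfold cnt Nw
  rw [Finset.sum_comm]
  refine Finset.sum_le_sum fun s _ => ?_
  rw [← Finset.mul_sum]
  apply mul_le_mul_of_nonneg_left _ (hc s)
  have hx := abs_le.1 htx
  have e1 : ∑ i ∈ Finset.range (N + 1), (if |s.im - (t + (A + 3 * h + 2 * h * (1 + e) * (i : ℝ)))| ≤ h then (1 : ℝ) else 0) =
      (((Finset.range (N + 1)).filter (fun i : ℕ => |s.im - (t + (A + 3 * h + 2 * h * (1 + e) * (i : ℝ)))| ≤ h)).card : ℝ) := by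
    rw [Finset.sum_boole]
  rw [e1]
  set E := (Finset.range (N + 1)).filter (fun i : ℕ => |s.im - (t + (A + 3 * h + 2 * h * (1 + e) * (i : ℝ)))| ≤ h) with hE
  have hcard : E.card ≤ 1 := by
    rw [Finset.card_le_one]
    have key : ∀ a ∈ E, ∀ b ∈ E, ¬ a < b := by
      intro a ha b hb hab
      rw [hE, Finset.mem_filter] at ha hb
      have h1 := abs_le.1 ha.2
      have h2 := abs_le.1 hb.2
      have h3 : (a : ℝ) + 1 ≤ b := by exact_mod_cast hab
      have h4 : 2 * h * (1 + e) * ((a : ℝ) + 1) ≤ 2 * h * (1 + e) * b :=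
        mul_le_mul_of_nonneg_left h3 (by positivity)
      have h5 : 0 < h * e := by positivity
      nlinarith [h1.1, h1.2, h2.1, h2.2]
    intro a ha b hb
    rcases lt_trichotomy a b with h1 | h1 | h1
    · exact absurd h1 (key a ha b hb)
    · exact h1
    · exact absurd h1 (key b hb a ha)
  by_cases hs : x + A < s.im ∧ s.im < x + B
  · rw [if_pos hs]
    exact_mod_cast hcard
  · rw [if_neg hs]
    have : E = ∅ := by
      rw [Finset.eq_empty_iff_forall_notMem]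
      intro i hi
      rw [hE, Finset.mem_filter, Finset.mem_range] at hi
      apply hs
      have h1 := abs_le.1 hi.2
      have h2 : (i : ℝ) ≤ N := by
        have : i ≤ N := by omega
        exact_mod_cast this
      have h3 : 2 * h * (1 + e) * (i : ℝ) ≤ 2 * h * (1 + e) * N := mul_le_mul_of_nonneg_left h2 (by positivity)
      have h4 : 0 ≤ 2 * h * (1 + e) * (i : ℝ) := by positivity
      constructor
      · linarith [h1.1, h1.2, hx.1, hx.2]
      · linarith [h1.1, h1.2, hx.1, hx.2]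
    rw [this]
    simp

/-- **correlations of all orders** -/
theorem combo {F : ℂ → ℂ} (hF : GoodL F) (hconc : S_conc F) (k : ℕ) (q : Fin (k + 1) → ℝ) (c : Fin (k + 1) → ℂ → ℝ)
    (hq : ∀ j, 1 / 2 ≤ q j) (hq1 : ∀ j, q j ≤ 1) (hc0 : ∀ j s, 0 ≤ c j s)
    (hcm : ∀ j, ∀ s, 0 < s.re → s.re < 1 → 1 < s.im → F s = 0 → c j s ≤ mult F s)
    (hsh : ∀ j, S_sharpD F (q j) (c j)) (ε : ℝ) (hε : 0 < ε) (hε1 : ε < 1) :
    ∃ δ L0 T0 : ℝ, 0 < δ ∧ 0 < L0 ∧ 10 ≤ T0 ∧ ∀ T : ℝ, T0 ≤ T → ∀ K : ℝ, T ^ (1 - δ) ≤ K → K ≤ T / 8 →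
    ∀ S : Finset ℕ, Len S (T ^ δ) → ∀ r : ℕ → ℂ, ∀ A B : Fin k → ℝ, (∀ j, -(T / 4) ≤ A j) →
    (∀ j, B j ≤ T ^ (1 + δ)) → (∀ j, L0 / Real.log T ≤ B j - A j) → ∀ V : ℝ, 4 * T ^ (1 + δ) ≤ V →
    (1 - ∑ j, (1 - q j) - ε) * ((∏ j, ((B j - A j) * Real.log T / (2 * Real.pi))) *
      (K / (2 * Real.pi) * Real.log T * w1 S r)) ≤
    ∑ s ∈ Zf F T (T + K), c 0 s * ‖RP S r s.im‖ ^ 2 *
      ∏ j : Fin k, Nw (Zf F 1 V) (c j.succ) (s.im + A j) (s.im + B j) := by
  classical
  obtain ⟨e, he⟩ : ∃ e : ℝ, e = ε / (100 * (k + 2)) := ⟨_, rfl⟩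
  have he0 : 0 < e := by rw [he]; positivity
  have hek : (100 * (k + 2)) * e = ε := by rw [he]; field_simp
  have hk0 : (0 : ℝ) ≤ k := Nat.cast_nonneg _
  have he1 : e ≤ 1 / 100 := by nlinarith only [hek, hε1, hk0, he0]
  -- the parameters
  choose δ1 H1 hδ1 hδ18 hH1 HH using fun j => shiftB hF (hq j) (hq1 j) (hc0 j) (hcm j) (hsh j) hconc e he0 he1
  obtain ⟨H0, hH0, HE⟩ := errB (hsh 0) e he0 (by linarith)
  obtain ⟨H2, hH2a, hH2b⟩ : ∃ H2 : ℝ, (∀ j, H1 j ≤ H2) ∧ H0 ≤ H2 := by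
    refine ⟨∑ j, H1 j + H0, fun j => ?_, ?_⟩
    · have := Finset.single_le_sum (fun i _ => (hH1 i).le) (Finset.mem_univ j) (f := H1)
      linarith
    · have : 0 ≤ ∑ j, H1 j := Finset.sum_nonneg fun j _ => (hH1 j).le
      linarith
  have hH20 : 0 < H2 := by linarith
  choose T1 hT1 HT using fun j => HH j H2 (hH2a j)
  obtain ⟨δe, Te, hδe, hTe, HE⟩ := HE H2 hH2b
  obtain ⟨Tm, hTm, HM⟩ := B3 e he0 (by linarith)
  obtain ⟨δ, hδ0, hδa, hδb⟩ : ∃ δ : ℝ, 0 < δ ∧ (∀ j, δ ≤ δ1 j) ∧ δ ≤ δe := by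
    have hne : (Finset.univ : Finset (Fin (k + 1))).Nonempty := Finset.univ_nonempty
    refine ⟨min (Finset.univ.inf' hne δ1) δe, lt_min ((Finset.lt_inf'_iff hne).2 fun j _ => hδ1 j) hδe, fun j => ?_,
      min_le_right _ _⟩
    exact (min_le_left _ _).trans (Finset.inf'_le _ (Finset.mem_univ j))
  obtain ⟨T2, hT2⟩ : ∃ T2 : ℝ, ∀ j, T1 j ≤ T2 := by
    refine ⟨∑ j, T1 j, fun j => ?_⟩
    exact Finset.single_le_sum (fun i _ => by linarith [hT1 i]) (Finset.mem_univ j) (f := T1)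
  have hev : ∀ᶠ T : ℝ in atTop, 10 * H2 ≤ Real.log T ∧ 12 ≤ T ^ (1 / 2 : ℝ) := by
    have e1 := Real.tendsto_log_atTop.eventually_ge_atTop (10 * H2)
    have e3 := (tendsto_rpow_atTop (show (0 : ℝ) < 1 / 2 by norm_num)).eventually_ge_atTop 12
    exact e1.and e3
  obtain ⟨T3, hT3⟩ := eventually_atTop.1 hev
  refine ⟨δ, 6 * H2 / e, max (max T2 Te) (max Tm T3), hδ0, by positivity,
    hTm.trans ((le_max_left _ _).trans (le_max_right _ _)), ?_⟩
  intro T hT K hK1 hK2 S hS r A B hA hB hAB V hV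
  have hTT2 : T2 ≤ T := ((le_max_left _ _).trans (le_max_left _ _)).trans hT
  have hTTe : Te ≤ T := ((le_max_right _ _).trans (le_max_left _ _)).trans hT
  have hTTm : Tm ≤ T := ((le_max_left _ _).trans (le_max_right _ _)).trans hT
  obtain ⟨g1, g2⟩ := hT3 T (((le_max_right _ _).trans (le_max_right _ _)).trans hT)
  have hT10 : 10 ≤ T := hTm.trans hTTm
  have hT0 : 0 < T := by linarith
  have hT1' : 1 ≤ T := by linarith
  have hδ8 : δ ≤ 1 / 8 := (hδa 0).trans (hδ18 0)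
  obtain ⟨L, hL⟩ : ∃ L : ℝ, L = Real.log T := ⟨_, rfl⟩
  rw [← hL] at g1 hAB ⊢
  have hL0 : 0 < L := by
    rw [hL]
    exact Real.log_pos (by linarith)
  obtain ⟨h, hh⟩ : ∃ h : ℝ, h = H2 / L := ⟨_, rfl⟩
  have hh0 : 0 < h := by rw [hh]; positivity
  have hh1 : h ≤ 1 / 10 := by
    rw [hh, div_le_iff₀ hL0]
    linarith
  have hπ := Real.pi_pos
  obtain ⟨G, hG⟩ : ∃ G : ℝ, G = (1 + 4 * e) * (h * L / Real.pi) := ⟨_, rfl⟩
  have hG0 : 0 < G := by rw [hG]; positivity
  have hK0 : 0 < K := lt_of_lt_of_le (by positivity) hK1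
  have hw0 : 0 ≤ w1 S r := w1_nonneg S r
  have hTp : T ≤ T ^ (1 + δ) := by
    nth_rewrite 1 [← Real.rpow_one T]
    exact Real.rpow_le_rpow_of_exponent_le hT1' (by linarith)
  have hK12 : 12 ≤ K := by
    refine g2.trans (le_trans ?_ hK1)
    apply Real.rpow_le_rpow_of_exponent_le hT1'
    linarith
  have hmono : ∀ {d : ℝ}, δ ≤ d → T ^ (1 - d) ≤ K ∧ Len S (T ^ d) ∧ T ^ (1 + δ) ≤ T ^ (1 + d) := by
    intro d hd
    refine ⟨(Real.rpow_le_rpow_of_exponent_le hT1' (by linarith)).trans hK1, fun k hk => ⟨(hS k hk).1, (hS k hk).2.trans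
      (Real.rpow_le_rpow_of_exponent_le hT1' hd)⟩, Real.rpow_le_rpow_of_exponent_le hT1' (by linarith)⟩
  set Z := Zf F 1 V with hZ
  set Q := K * w1 S r with hQ
  have hQ0 : 0 ≤ Q := by rw [hQ]; positivity
  set a := T + 2 * h with ha
  set b := T + K - 2 * h with hb
  have hab : a ≤ b := by rw [ha, hb]; linarith
  -- the windows
  have hAB6 : ∀ j, 6 * h ≤ e * (B j - A j) := by
    intro j
    have h1 := hAB j
    rw [div_div, div_le_iff₀ (by positivity)] at h1
    rw [hh, ← mul_div_assoc, div_le_iff₀ hL0]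
    linarith
  have hABp : ∀ j, 0 < B j - A j := by
    intro j
    have h1 := hAB6 j
    by_contra hcon
    push Not at hcon
    nlinarith only [hcon, h1, hh0, he0]
  obtain ⟨N, hN⟩ : ∃ N : Fin k → ℕ, N = fun j => ⌊(B j - A j - 6 * h) / (2 * h * (1 + e))⌋₊ := ⟨_, rfl⟩
  have hNa : ∀ j, 2 * h * (1 + e) * N j ≤ B j - A j - 6 * h := by
    intro j
    have h2 : 0 ≤ B j - A j - 6 * h := by
      have h1 := hAB6 j
      have h3 := hABp j
      nlinarith only [h1, h3, he1]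
    have h1 : (N j : ℝ) ≤ (B j - A j - 6 * h) / (2 * h * (1 + e)) := by
      rw [hN]
      exact Nat.floor_le (by positivity)
    rw [le_div_iff₀ (by positivity)] at h1
    linarith
  have hNb : ∀ j, (B j - A j) * L / (2 * Real.pi) ≤ ((N j : ℝ) + 1) * G := by
    intro j
    have h1 : (B j - A j - 6 * h) / (2 * h * (1 + e)) < (N j : ℝ) + 1 := by
      rw [hN]
      exact Nat.lt_floor_add_one _
    have h2 : (B j - A j) * L / (2 * Real.pi) ≤ (B j - A j - 6 * h) / (2 * h * (1 + e)) * G := by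
      rw [hG]
      have h3 : (B j - A j - 6 * h) / (2 * h * (1 + e)) * ((1 + 4 * e) * (h * L / Real.pi)) =
          ((B j - A j - 6 * h) * (1 + 4 * e) / (1 + e)) * (L / (2 * Real.pi)) := by
        field_simp
      have h4 : B j - A j ≤ (B j - A j - 6 * h) * (1 + 4 * e) / (1 + e) := by
        rw [le_div_iff₀ (by positivity)]
        have h5 := hAB6 j
        have h6 := hABp j
        have h7 : (1 - e) * (B j - A j) ≤ B j - A j - 6 * h := by linarith
        have h8 : (1 - e) * (B j - A j) * (1 + 4 * e) ≤ (B j - A j - 6 * h) * (1 + 4 * e) :=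
          mul_le_mul_of_nonneg_right h7 (by positivity)
        have h9 : 0 ≤ (B j - A j) * (e * (2 - 4 * e)) := by
          apply mul_nonneg h6.le
          apply mul_nonneg he0.le
          linarith
        nlinarith only [h8, h9]
      rw [h3]
      calc (B j - A j) * L / (2 * Real.pi) = (B j - A j) * (L / (2 * Real.pi)) := by ring
        _ ≤ _ := mul_le_mul_of_nonneg_right h4 (by positivity)
    exact h2.trans (mul_le_mul_of_nonneg_right h1.le hG0.le)
  obtain ⟨n, hn⟩ : ∃ n : Fin (k + 1) → ℕ, n = Fin.cons (α := fun _ => ℕ) 1 (fun j => N j + 1) := ⟨_, rfl⟩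
  obtain ⟨u, hu⟩ : ∃ u : Fin (k + 1) → ℕ → ℝ,
      u = Fin.cons (α := fun _ => ℕ → ℝ) (fun _ => 0) (fun j i => A j + 3 * h + 2 * h * (1 + e) * i) := ⟨_, rfl⟩
  have hn0 : n 0 = 1 := by rw [hn]; rfl
  have hns : ∀ j : Fin k, n j.succ = N j + 1 := by intro j; rw [hn]; rfl
  have hu0 : ∀ i, u 0 i = 0 := by intro i; rw [hu]; rfl
  have hus : ∀ (j : Fin k) (i : ℕ), u j.succ i = A j + 3 * h + 2 * h * (1 + e) * i := by intro j i; rw [hu]; rfl
  have hnp : ∀ j, 0 < n j := by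
    intro j
    refine Fin.cases ?_ (fun i => ?_) j
    · rw [hn0]; exact one_pos
    · rw [hns]; omega
  have hub : ∀ j, ∀ i < n j, -(T / 4) ≤ u j i ∧ u j i ≤ T ^ (1 + δ) := by
    intro j
    refine Fin.cases ?_ (fun j => ?_) j
    · intro i _
      rw [hu0]
      constructor <;> linarith
    · intro i hi
      rw [hns] at hi
      rw [hus]
      have h1 : (i : ℝ) ≤ N j := by
        have : i ≤ N j := by omega
        exact_mod_cast this
      have h2 : 2 * h * (1 + e) * (i : ℝ) ≤ 2 * h * (1 + e) * N j := mul_le_mul_of_nonneg_left h1 (by positivity)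
      have h3 : 0 ≤ 2 * h * (1 + e) * (i : ℝ) := by positivity
      have h4 := hNa j
      have h5 := hA j
      have h6 := hB j
      constructor <;> linarith
  -- the averages
  set P : Fin (k + 1) → ℝ → ℝ := fun j => av Z (c j) h G (n j) (u j) with hP
  have hP0 : ∀ j t, 0 ≤ P j t := fun j t => av_nonneg (hc0 j) hG0 _ _ _
  have hP1 : ∀ j t, P j t ≤ 1 := fun j t => av_le_one hG0 (hnp j) _ _
  have hPm : ∀ j, Measurable (P j) := fun j => av_meas _ _ _ _ _ _
  set f : ℝ → ℝ := fun t => ‖RP S r t‖ ^ 2 with hf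
  have hfc : Continuous f := RPc S r
  have hf0 : ∀ t, 0 ≤ f t := fun t => sq_nonneg _
  have hPi : ∀ j, (q j - 9 * e) * Q ≤ ∫ t in a..b, f t * P j t := by
    intro j
    apply av_int (hc0 j) hG0 (hnp j) _ hfc
    intro i hi
    obtain ⟨h1, h2⟩ := hub j i hi
    obtain ⟨h3, h4, h5⟩ := hmono (hδa j)
    exact HT j T ((hT2 j).trans hTT2) h G (by rw [hh, hL]) (by rw [hG, hL]) K h3 hK2 S h4 r (u j i) h1 (h2.trans h5) V
      (by linarith)
  have hmass : ∫ t in a..b, f t ≤ (1 + e) * Q := by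
    have h1 := HM T hTTm K ((Real.rpow_le_rpow_of_exponent_le hT1' (by linarith)).trans hK1) S
      (fun k hk => ⟨(hS k hk).1, (hS k hk).2.trans (Real.rpow_le_rpow_of_exponent_le hT1' (by linarith))⟩) r
    refine le_trans ?_ h1
    apply intervalIntegral.integral_mono_interval (by rw [ha]; linarith) hab (by rw [hb]; linarith)
    · exact Eventually.of_forall hf0
    · exact hfc.intervalIntegrable _ _
  have hfP : ∀ j, IntervalIntegrable (fun t => f t * P j t) volume a b := fun j =>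
    wint hfc (hPm j) (fun t => by rw [abs_of_nonneg (hP0 j t)]; exact hP1 j t) _ _
  have hfi : IntervalIntegrable f volume a b := hfc.intervalIntegrable _ _
  have hpm : Measurable (fun t => ∏ j, P j t) := Finset.measurable_prod _ fun j _ => hPm j
  have hprod : ∀ t, 1 - ∑ j, (1 - P j t) ≤ ∏ j, P j t ∧ 0 ≤ ∏ j, P j t ∧ ∏ j, P j t ≤ 1 := fun t =>
    prod_ge Finset.univ (fun j => P j t) (fun j _ => hP0 j t) (fun j _ => hP1 j t)
  have hfp : IntervalIntegrable (fun t => f t * ∏ j, P j t) volume a b :=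
    wint hfc hpm (fun t => by rw [abs_of_nonneg (hprod t).2.1]; exact (hprod t).2.2) _ _
  obtain ⟨κ, hκ⟩ : ∃ κ : ℝ, κ = 1 - ∑ j, (1 - q j) := ⟨_, rfl⟩
  rw [← hκ]
  have hsumi : IntervalIntegrable (fun t => ∑ j, f t * P j t) volume a b := by
    have h1 := IntervalIntegrable.sum Finset.univ (fun j (_ : j ∈ Finset.univ) => hfP j)
    have h2 : (∑ i, fun t => f t * P i t) = fun t => ∑ i, f t * P i t := by
      funext t
      simp
    rw [h2] at h1
    exact h1
  have hlow : (κ - 10 * (k + 1) * e) * Q ≤ ∫ t in a..b, f t * ∏ j, P j t := by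
    have h1 : ∫ t in a..b, (∑ j, f t * P j t - k * f t) ≤ ∫ t in a..b, f t * ∏ j, P j t := by
      apply intervalIntegral.integral_mono_on hab _ hfp
      · intro t _
        have h2 := (hprod t).1
        have h3 : ∑ j, f t * P j t - k * f t = f t * (1 - ∑ j, (1 - P j t)) := by
          rw [Finset.sum_sub_distrib, ← Finset.mul_sum]
          simp
          ring
        rw [h3]
        exact mul_le_mul_of_nonneg_left h2 (hf0 t)
      · exact hsumi.sub (hfi.const_mul _)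
    rw [intervalIntegral.integral_sub hsumi (hfi.const_mul _),
      intervalIntegral.integral_finsetSum (fun j _ => hfP j), intervalIntegral.integral_const_mul] at h1
    have h4 : ∑ j, (q j - 9 * e) * Q ≤ ∑ j, ∫ t in a..b, f t * P j t := Finset.sum_le_sum fun j _ => hPi j
    have h5 : ∑ j, (q j - 9 * e) * Q = (∑ j, q j - 9 * (k + 1) * e) * Q := by
      rw [← Finset.sum_mul, Finset.sum_sub_distrib, Finset.sum_const, Finset.card_univ, Fintype.card_fin, nsmul_eq_mul]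
      push_cast
      ring
    have h6 : (k : ℝ) * ∫ t in a..b, f t ≤ k * ((1 + e) * Q) := mul_le_mul_of_nonneg_left hmass hk0
    have h7 : κ = ∑ j, q j - k := by
      rw [hκ, Finset.sum_sub_distrib]
      simp
      ring
    have h8 : (κ - 10 * (k + 1) * e) * Q ≤ (∑ j, q j - 9 * (k + 1) * e) * Q - k * ((1 + e) * Q) := by
      have h9 : 0 ≤ e * Q := by positivity
      rw [h7]
      nlinarith only [h9]
    linarith
  -- the points
  set m : ℂ → ℝ := fun s => c 0 s * ∏ j : Fin k,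
    min (Nw Z (c j.succ) (s.im + A j) (s.im + B j) / (((N j : ℝ) + 1) * G)) 1 with hm
  have hmp : ∀ s : ℂ, 0 ≤ ∏ j : Fin k, min (Nw Z (c j.succ) (s.im + A j) (s.im + B j) / (((N j : ℝ) + 1) * G)) 1 := fun s =>
    Finset.prod_nonneg fun j _ => le_min (div_nonneg (Nw_nonneg (hc0 _) _ _) (by positivity)) zero_le_one
  have hmp1 : ∀ s : ℂ, ∏ j : Fin k, min (Nw Z (c j.succ) (s.im + A j) (s.im + B j) / (((N j : ℝ) + 1) * G)) 1 ≤ 1 := fun s =>
    Finset.prod_le_one (fun j _ => le_min (div_nonneg (Nw_nonneg (hc0 _) _ _) (by positivity)) zero_le_one)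
      fun j _ => min_le_right _ _
  have hm0 : ∀ s : ℂ, 0 ≤ m s := fun s => mul_nonneg (hc0 0 s) (hmp s)
  have hmc : ∀ s : ℂ, m s ≤ c 0 s := fun s => mul_le_of_le_one_right (hc0 0 s) (hmp1 s)
  have hpt : ∀ t, ∏ j, P j t ≤ 1 / G * cnt Z m h t := by
    intro t
    rw [Fin.prod_univ_succ]
    have h1 : P 0 t ≤ 1 / G * cnt Z (c 0) h t := by
      simp only [hP]
      unfold av
      rw [hn0]
      simp only [Finset.range_one, Finset.sum_singleton, Nat.cast_one, div_one]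
      rw [hu0, add_zero, div_eq_mul_one_div, mul_comm]
      exact mul_le_mul_of_nonneg_left (min_le_left _ _) (by positivity)
    have h2 : 0 ≤ ∏ j : Fin k, P j.succ t := Finset.prod_nonneg fun j _ => hP0 _ _
    refine (mul_le_mul_of_nonneg_right h1 h2).trans ?_
    rw [mul_assoc]
    apply mul_le_mul_of_nonneg_left _ (by positivity)
    unfold cnt
    rw [Finset.sum_mul]
    refine Finset.sum_le_sum fun s _ => ?_
    by_cases hs : |s.im - t| ≤ h
    · rw [if_pos hs, mul_one, mul_one]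
      simp only [hm]
      apply mul_le_mul_of_nonneg_left _ (hc0 0 s)
      apply Finset.prod_le_prod (fun j _ => hP0 _ _)
      intro j _
      apply le_min _ (hP1 _ _)
      rw [le_div_iff₀ (by positivity)]
      have h3 := windows (Z := Z) (hc0 j.succ) hh0 he0 (t := t) (x := s.im) (by rw [abs_sub_comm]; exact hs) (N j) (hNa j)
      refine le_trans ?_ h3
      simp only [hP]
      unfold av
      rw [hns]
      have h4 : (0 : ℝ) < (N j : ℝ) + 1 := by positivity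
      have h5 : (∑ i ∈ Finset.range (N j + 1), min (cnt Z (c j.succ) h (t + u j.succ i)) G / G) / ((N j + 1 : ℕ) : ℝ) *
          (((N j : ℝ) + 1) * G) = ∑ i ∈ Finset.range (N j + 1), min (cnt Z (c j.succ) h (t + u j.succ i)) G := by
        rw [← Finset.sum_div]
        push_cast
        field_simp
      rw [h5]
      refine Finset.sum_le_sum fun i _ => ?_
      rw [hus]
      exact min_le_left _ _
    · rw [if_neg hs]
      simp
  have hup : ∫ t in a..b, f t * ∏ j, P j t ≤ 1 / G * (2 * h * ∑ s ∈ Zf F T (T + K), m s * Mh S r h s.im) := by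
    have h1 : ∫ t in a..b, f t * ∏ j, P j t ≤ ∫ t in a..b, 1 / G * (f t * cnt Z m h t) := by
      apply intervalIntegral.integral_mono_on hab hfp ((cnt_int hfc Z m h a b).const_mul _)
      intro t _
      calc f t * ∏ j, P j t ≤ f t * (1 / G * cnt Z m h t) := mul_le_mul_of_nonneg_left (hpt t) (hf0 t)
        _ = _ := by ring
    rw [intervalIntegral.integral_const_mul] at h1
    refine h1.trans (mul_le_mul_of_nonneg_left ?_ (by positivity))
    rw [Mh_sum S r hh0 (Zf F T (T + K)) m]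
    apply pts_lower hfc hf0 hm0 hab le_rfl hh0.le
    intro s hs h2 h3
    have hsz := (mem_Zf hF (le_refl (1 : ℝ))).1 hs
    refine (mem_Zf hF hT1').2 ⟨hsz.1, hsz.2.1, ?_, ?_, hsz.2.2.2.2⟩
    · rw [ha] at h2
      linarith
    · rw [hb] at h3
      linarith
  -- trivial case
  have hrhs : 0 ≤ ∑ s ∈ Zf F T (T + K), c 0 s * ‖RP S r s.im‖ ^ 2 *
      ∏ j : Fin k, Nw Z (c j.succ) (s.im + A j) (s.im + B j) :=
    Finset.sum_nonneg fun s _ => mul_nonneg (mul_nonneg (hc0 0 s) (sq_nonneg _))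
      (Finset.prod_nonneg fun j _ => Nw_nonneg (hc0 _) _ _)
  set Wp := ∏ j, ((B j - A j) * L / (2 * Real.pi)) with hWp
  have hWp0 : 0 ≤ Wp := Finset.prod_nonneg fun j _ => by
    have := hABp j
    positivity
  set R := K / (2 * Real.pi) * L * w1 S r with hR
  have hR0 : 0 ≤ R := by rw [hR]; positivity
  rcases le_or_gt (κ - ε) 0 with hneg | hpos
  · exact le_trans (mul_nonpos_of_nonpos_of_nonneg hneg (by positivity)) hrhs
  have hεe : 10 * (k + 1) * e + e ≤ ε := by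
    rw [← hek]
    nlinarith only [he0, hk0, mul_nonneg hk0 he0.le]
  have hMh : (κ - 10 * (k + 1) * e) * R ≤ ∑ s ∈ Zf F T (T + K), m s * Mh S r h s.im := by
    have h1 := hlow.trans hup
    have h2 : 0 ≤ κ - 10 * (k + 1) * e := by linarith
    have h3 : (κ - 10 * (k + 1) * e) * Q * (G / (2 * h)) ≤ ∑ s ∈ Zf F T (T + K), m s * Mh S r h s.im := by
      have h4 := mul_le_mul_of_nonneg_right h1 (show 0 ≤ G / (2 * h) by positivity)
      refine h4.trans (le_of_eq ?_)
      field_simp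
    refine le_trans ?_ h3
    rw [mul_assoc _ Q]
    apply mul_le_mul_of_nonneg_left _ h2
    have h5 : Q * (G / (2 * h)) = (1 + 4 * e) * R := by
      rw [hQ, hG, hR]
      field_simp
    rw [h5]
    nlinarith only [mul_nonneg he0.le hR0]
  have hE := HE T hTTe h (by rw [hh, hL]) K (hmono hδb).1 (by linarith) S (hmono hδb).2.1 r
  rw [← hL, ← hR] at hE
  have hval : (κ - 10 * (k + 1) * e - e) * R ≤ ∑ s ∈ Zf F T (T + K), m s * ‖RP S r s.im‖ ^ 2 := by
    have h1 : ∑ s ∈ Zf F T (T + K), m s * Mh S r h s.im - ∑ s ∈ Zf F T (T + K), (mult F s : ℝ) * |‖RP S r s.im‖ ^ 2 - Mh S r h s.im| ≤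
        ∑ s ∈ Zf F T (T + K), m s * ‖RP S r s.im‖ ^ 2 := by
      rw [← Finset.sum_sub_distrib]
      refine Finset.sum_le_sum fun s hs => ?_
      have hsz := (mem_Zf hF hT1').1 hs
      have h2 : m s ≤ mult F s := (hmc s).trans (hcm 0 s hsz.1 hsz.2.1 (by linarith [hsz.2.2.1]) hsz.2.2.2.2)
      have h3 := abs_nonneg (‖RP S r s.im‖ ^ 2 - Mh S r h s.im)
      have h4 := (abs_le.1 (le_refl |‖RP S r s.im‖ ^ 2 - Mh S r h s.im|)).1
      have h5 := mul_le_mul_of_nonneg_right h2 h3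
      have h6 := mul_le_mul_of_nonneg_left h4 (hm0 s)
      nlinarith only [h5, h6]
    have h7 : (κ - 10 * (k + 1) * e - e) * R = (κ - 10 * (k + 1) * e) * R - e * R := by ring
    rw [h7]
    linarith
  have hfac : Wp * ∑ s ∈ Zf F T (T + K), m s * ‖RP S r s.im‖ ^ 2 ≤
      ∑ s ∈ Zf F T (T + K), c 0 s * ‖RP S r s.im‖ ^ 2 * ∏ j : Fin k, Nw Z (c j.succ) (s.im + A j) (s.im + B j) := by
    rw [Finset.mul_sum]
    refine Finset.sum_le_sum fun s _ => ?_
    have h1 : Wp * ∏ j : Fin k, min (Nw Z (c j.succ) (s.im + A j) (s.im + B j) / (((N j : ℝ) + 1) * G)) 1 ≤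
        ∏ j : Fin k, Nw Z (c j.succ) (s.im + A j) (s.im + B j) := by
      rw [hWp, ← Finset.prod_mul_distrib]
      apply Finset.prod_le_prod
      · intro j _
        have := hABp j
        exact mul_nonneg (by positivity) (le_min (div_nonneg (Nw_nonneg (hc0 _) _ _) (by positivity)) zero_le_one)
      · intro j _
        have h2 := hNb j
        have h3 : 0 ≤ min (Nw Z (c j.succ) (s.im + A j) (s.im + B j) / (((N j : ℝ) + 1) * G)) 1 :=
          le_min (div_nonneg (Nw_nonneg (hc0 _) _ _) (by positivity)) zero_le_one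
        have h4 : (0 : ℝ) < ((N j : ℝ) + 1) * G := by positivity
        calc (B j - A j) * L / (2 * Real.pi) * min (Nw Z (c j.succ) (s.im + A j) (s.im + B j) / (((N j : ℝ) + 1) * G)) 1 ≤
            (((N j : ℝ) + 1) * G) * min (Nw Z (c j.succ) (s.im + A j) (s.im + B j) / (((N j : ℝ) + 1) * G)) 1 :=
              mul_le_mul_of_nonneg_right h2 h3
          _ ≤ (((N j : ℝ) + 1) * G) * (Nw Z (c j.succ) (s.im + A j) (s.im + B j) / (((N j : ℝ) + 1) * G)) :=
              mul_le_mul_of_nonneg_left (min_le_left _ _) h4.le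
          _ = _ := by field_simp
    have h5 : 0 ≤ c 0 s * ‖RP S r s.im‖ ^ 2 := mul_nonneg (hc0 0 s) (sq_nonneg _)
    calc Wp * (m s * ‖RP S r s.im‖ ^ 2) = c 0 s * ‖RP S r s.im‖ ^ 2 * (Wp * ∏ j : Fin k,
          min (Nw Z (c j.succ) (s.im + A j) (s.im + B j) / (((N j : ℝ) + 1) * G)) 1) := by
          simp only [hm]
          ring
      _ ≤ _ := mul_le_mul_of_nonneg_left h1 h5
  refine le_trans ?_ hfac
  calc (κ - ε) * (Wp * R) = Wp * ((κ - ε) * R) := by ring
    _ ≤ Wp * ((κ - 10 * (k + 1) * e - e) * R) := by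
        apply mul_le_mul_of_nonneg_left _ hWp0
        apply mul_le_mul_of_nonneg_right _ hR0
        linarith
    _ ≤ _ := mul_le_mul_of_nonneg_left hval hWp0

end Pool.Agent.Run7.h609.CW
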