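import Pool.Agent.N802.U.Ms2
import Pool.Agent.N802.U.Fm2
import Pool.Agent.N802.U.Rh

/-!
# The mean square of the prime side at frequency `0`, weighted by `|R|²`, for all Dirichlet polynomials (helper609)
-/

set_option linter.unusedVariables false
set_option maxHeartbeats 4000000

open Complex Filter Topology Set MeasureTheory
open scoped BigOperators ComplexConjugate

namespace Pool.Agent.Run7.h609.CW

open Pool.Agent.N802 Pool.Agent.N802.U Pool.Agent.N802.U.Fm2aux Pool.Agent.N802.U.FMaux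
open TC (om om_pos om_cont om_integrable om_integral lam lam_nonneg)

/-- the diagonal -/
lemma diag_sq {S N : Finset ℕ} {X : ℕ} {K0 ℓ A : ℝ} (hS : Len S K0) (hN : ∀ n ∈ N, 0 < n ∧ n ≤ X)
    (hℓ0 : 0 ≤ ℓ) (hℓ : Real.log (K0 * X) ≤ ℓ) (r c : ℕ → ℂ) (G : ℕ → ℝ) (hG0 : ∀ n, 0 ≤ G n)
    (hc : ∀ n, ‖c n‖ ≤ lam n * G n)
    (hA : ∑ n ∈ N, ArithmeticFunction.vonMangoldt n / n * G n ^ 2 ≤ A) :
    ‖∑ x ∈ ((S ×ˢ S) ×ˢ (N ×ˢ N)).filter (fun x => x.1.1 * x.2.1 = x.1.2 * x.2.2),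
      uc r x.1 * uc c x.2‖ ≤ w1 S r * (ℓ * A) := by
  classical
  set F := ((S ×ˢ S) ×ˢ (N ×ˢ N)).filter (fun x => x.1.1 * x.2.1 = x.1.2 * x.2.2) with hF
  have hmem : ∀ x ∈ F, x.1.1 ∈ S ∧ x.1.2 ∈ S ∧ x.2.1 ∈ N ∧ x.2.2 ∈ N ∧
      x.1.1 * x.2.1 = x.1.2 * x.2.2 := by
    intro x hx
    rw [hF, Finset.mem_filter, Finset.mem_product, Finset.mem_product, Finset.mem_product] at hx
    exact ⟨hx.1.1.1, hx.1.1.2, hx.1.2.1, hx.1.2.2, hx.2⟩
  set Λ := fun n : ℕ => ArithmeticFunction.vonMangoldt n with hΛ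
  have hΛ0 : ∀ n, 0 ≤ Λ n := fun n => ArithmeticFunction.vonMangoldt_nonneg
  have hw := w1_nonneg S r
  set φ : (ℕ × ℕ) × ℕ → ℝ := fun y => ‖r y.1.1‖ ^ 2 * (Λ y.1.2 / y.1.2 * G y.1.2 ^ 2) * Λ y.2 with hφ
  have hφ0 : ∀ y, 0 ≤ φ y := by
    intro y
    have h1 := hΛ0 y.1.2
    have h2 := hΛ0 y.2
    simp only [hφ]
    positivity
  -- the triple sum
  have hT : ∑ y ∈ ((S ×ˢ N) ×ˢ N).filter (fun y => y.2 ∣ y.1.1 * y.1.2), φ y ≤ w1 S r * (ℓ * A) := by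
    have e1 : ∑ y ∈ ((S ×ˢ N) ×ˢ N).filter (fun y => y.2 ∣ y.1.1 * y.1.2), φ y =
        ∑ k ∈ S, ∑ n ∈ N, (‖r k‖ ^ 2 * (Λ n / n * G n ^ 2)) * ∑ m ∈ N.filter (fun m => m ∣ k * n), Λ m := by
      rw [Finset.sum_filter, Finset.sum_product, Finset.sum_product]
      refine Finset.sum_congr rfl fun k _ => Finset.sum_congr rfl fun n _ => ?_
      rw [Finset.mul_sum, Finset.sum_filter]
    rw [e1]
    have hℓ0' : ∀ k ∈ S, ∀ n ∈ N, ∑ m ∈ N.filter (fun m => m ∣ k * n), Λ m ≤ ℓ := by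
      intro k hk n hn
      have hk1 := (hS k hk).1
      have hn1 := (hN n hn).1
      refine (sum_div (k * n) (Nat.mul_pos hk1 hn1) N).trans (le_trans ?_ hℓ)
      apply Real.log_le_log (by exact_mod_cast Nat.mul_pos hk1 hn1)
      push_cast
      have h1 := (hS k hk).2
      have h2 : (n : ℝ) ≤ X := by exact_mod_cast (hN n hn).2
      have h3 : (0 : ℝ) ≤ k := Nat.cast_nonneg _
      exact mul_le_mul h1 h2 (Nat.cast_nonneg _) (h3.trans h1)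
    calc ∑ k ∈ S, ∑ n ∈ N, (‖r k‖ ^ 2 * (Λ n / n * G n ^ 2)) * ∑ m ∈ N.filter (fun m => m ∣ k * n), Λ m ≤
        ∑ k ∈ S, ∑ n ∈ N, (‖r k‖ ^ 2 * (Λ n / n * G n ^ 2)) * ℓ := by
          refine Finset.sum_le_sum fun k hk => Finset.sum_le_sum fun n hn => ?_
          apply mul_le_mul_of_nonneg_left (hℓ0' k hk n hn)
          have := hΛ0 n
          positivity
      _ = w1 S r * (ℓ * ∑ n ∈ N, Λ n / n * G n ^ 2) := by
          unfold w1
          rw [Finset.mul_sum, Finset.sum_mul_sum]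
          refine Finset.sum_congr rfl fun k _ => Finset.sum_congr rfl fun n _ => ?_
          ring
      _ ≤ w1 S r * (ℓ * A) :=
          mul_le_mul_of_nonneg_left (mul_le_mul_of_nonneg_left hA hℓ0) hw
  set f := fun x : (ℕ × ℕ) × (ℕ × ℕ) => ‖r x.1.1‖ * (Real.sqrt (Λ x.2.1 / x.2.1) * G x.2.1) * Real.sqrt (Λ x.2.2) with hf
  set g := fun x : (ℕ × ℕ) × (ℕ × ℕ) => ‖r x.1.2‖ * (Real.sqrt (Λ x.2.2 / x.2.2) * G x.2.2) * Real.sqrt (Λ x.2.1) with hg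
  have hlam : ∀ n : ℕ, lam n = Real.sqrt (Λ n / n) * Real.sqrt (Λ n) := by
    intro n
    unfold lam
    rw [Real.sqrt_div (hΛ0 _), div_mul_eq_mul_div, Real.mul_self_sqrt (hΛ0 _)]
  have h1 : ‖∑ x ∈ F, uc r x.1 * uc c x.2‖ ≤ ∑ x ∈ F, (f x ^ 2 + g x ^ 2) / 2 := by
    refine (norm_sum_le _ _).trans (Finset.sum_le_sum fun x _ => ?_)
    unfold uc
    rw [norm_mul, norm_mul, norm_mul, RCLike.norm_conj, RCLike.norm_conj]
    have h2 := hc x.2.1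
    have h3 := hc x.2.2
    rw [hlam] at h2 h3
    have h4 : ‖r x.1.1‖ * ‖r x.1.2‖ * (‖c x.2.1‖ * ‖c x.2.2‖) ≤ f x * g x := by
      calc ‖r x.1.1‖ * ‖r x.1.2‖ * (‖c x.2.1‖ * ‖c x.2.2‖) ≤
          ‖r x.1.1‖ * ‖r x.1.2‖ * ((Real.sqrt (Λ x.2.1 / x.2.1) * Real.sqrt (Λ x.2.1) * G x.2.1) *
            (Real.sqrt (Λ x.2.2 / x.2.2) * Real.sqrt (Λ x.2.2) * G x.2.2)) := by
            apply mul_le_mul_of_nonneg_left _ (by positivity)
            exact mul_le_mul h2 h3 (norm_nonneg _) ((norm_nonneg _).trans h2)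
        _ = f x * g x := by simp only [hf, hg]; ring
    nlinarith [sq_nonneg (f x - g x)]
  have hf2 : ∑ x ∈ F, f x ^ 2 ≤ w1 S r * (ℓ * A) := by
    have hinj : Set.InjOn (fun x : (ℕ × ℕ) × (ℕ × ℕ) => ((x.1.1, x.2.1), x.2.2)) F := by
      intro x hx y hy hxy
      have a1 := (hmem x hx).2.2.2.2
      have a2 := (hmem y hy).2.2.2.2
      have a3 := (hN _ (hmem x hx).2.2.2.1).1
      obtain ⟨⟨x1, x2⟩, ⟨x3, x4⟩⟩ := x
      obtain ⟨⟨y1, y2⟩, ⟨y3, y4⟩⟩ := y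
      simp only [Prod.mk.injEq] at hxy
      simp only at a1 a2 a3
      obtain ⟨⟨rfl, rfl⟩, rfl⟩ := hxy
      rw [a1] at a2
      rw [Nat.eq_of_mul_eq_mul_right a3 a2]
    have e1 : ∑ x ∈ F, f x ^ 2 = ∑ y ∈ F.image (fun x : (ℕ × ℕ) × (ℕ × ℕ) => ((x.1.1, x.2.1), x.2.2)), φ y := by
      rw [Finset.sum_image hinj]
      refine Finset.sum_congr rfl fun x _ => ?_
      simp only [hf, hφ]
      rw [mul_pow, mul_pow, mul_pow, Real.sq_sqrt (div_nonneg (hΛ0 _) (Nat.cast_nonneg _)), Real.sq_sqrt (hΛ0 _)]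
    rw [e1]
    refine le_trans ?_ hT
    apply Finset.sum_le_sum_of_subset_of_nonneg
    · intro y hy
      rw [Finset.mem_image] at hy
      obtain ⟨x, hx, rfl⟩ := hy
      have hm := hmem x hx
      rw [Finset.mem_filter, Finset.mem_product, Finset.mem_product]
      refine ⟨⟨⟨hm.1, hm.2.2.1⟩, hm.2.2.2.1⟩, ?_⟩
      simp only
      rw [hm.2.2.2.2]
      exact Dvd.intro_left _ rfl
    · intro y _ _
      exact hφ0 y
  have hg2 : ∑ x ∈ F, g x ^ 2 ≤ w1 S r * (ℓ * A) := by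
    have hinj : Set.InjOn (fun x : (ℕ × ℕ) × (ℕ × ℕ) => ((x.1.2, x.2.2), x.2.1)) F := by
      intro x hx y hy hxy
      have a1 := (hmem x hx).2.2.2.2
      have a2 := (hmem y hy).2.2.2.2
      have a3 := (hN _ (hmem x hx).2.2.1).1
      obtain ⟨⟨x1, x2⟩, ⟨x3, x4⟩⟩ := x
      obtain ⟨⟨y1, y2⟩, ⟨y3, y4⟩⟩ := y
      simp only [Prod.mk.injEq] at hxy
      simp only at a1 a2 a3
      obtain ⟨⟨rfl, rfl⟩, rfl⟩ := hxy
      rw [← a1] at a2
      rw [Nat.eq_of_mul_eq_mul_right a3 a2]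
    have e1 : ∑ x ∈ F, g x ^ 2 = ∑ y ∈ F.image (fun x : (ℕ × ℕ) × (ℕ × ℕ) => ((x.1.2, x.2.2), x.2.1)), φ y := by
      rw [Finset.sum_image hinj]
      refine Finset.sum_congr rfl fun x _ => ?_
      simp only [hg, hφ]
      rw [mul_pow, mul_pow, mul_pow, Real.sq_sqrt (div_nonneg (hΛ0 _) (Nat.cast_nonneg _)), Real.sq_sqrt (hΛ0 _)]
    rw [e1]
    refine le_trans ?_ hT
    apply Finset.sum_le_sum_of_subset_of_nonneg
    · intro y hy
      rw [Finset.mem_image] at hy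
      obtain ⟨x, hx, rfl⟩ := hy
      have hm := hmem x hx
      rw [Finset.mem_filter, Finset.mem_product, Finset.mem_product]
      refine ⟨⟨⟨hm.2.1, hm.2.2.2.1⟩, hm.2.2.1⟩, ?_⟩
      simp only
      rw [← hm.2.2.2.2]
      exact Dvd.intro_left _ rfl
    · intro y _ _
      exact hφ0 y
  refine h1.trans ?_
  rw [← Finset.sum_div, Finset.sum_add_distrib]
  linarith

/-- the weighted mean square of a Dirichlet polynomial over the prime powers, without the constant term -/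
lemma om_sq (S N : Finset ℕ) (r c : ℕ → ℂ) {K0 τ H Y ℓ A : ℝ} {X : ℕ} (hH : 0 < H) (hK : 1 ≤ K0)
    (hS : Len S K0) (hN : ∀ n ∈ N, 0 < n ∧ n ≤ X) (G : ℕ → ℝ) (hG0 : ∀ n, 0 ≤ G n)
    (hc : ∀ n, ‖c n‖ ≤ lam n * G n)
    (hA : ∑ n ∈ N, ArithmeticFunction.vonMangoldt n / n * G n ^ 2 ≤ A)
    (hℓ0 : 0 ≤ ℓ) (hℓ : Real.log (K0 * X) ≤ ℓ) (hY : K0 * X ≤ Y) :
    ∫ t, om τ H t * (‖RP S r t‖ ^ 2 * ‖RP N c t‖ ^ 2) ≤
      Real.sqrt (2 * Real.pi) * H * (w1 S r * (ℓ * A) +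
        w1 S r * (n1 N c ^ 2 * (K0 * Real.exp (-(H ^ 2) / (8 * Y ^ 2))))) := by
  have hS0 : ∀ k ∈ S, 0 < k := fun k hk => (hS k hk).1
  have hN0 : ∀ n ∈ N, 0 < n := fun n hn => (hN n hn).1
  have h1 := om_TP ((S ×ˢ S) ×ˢ (N ×ˢ N)) (fun x => uc r x.1 * uc c x.2)
    (fun x => x.1.1 * x.2.1) (fun x => x.1.2 * x.2.2) τ H Y hH
    (fun x hx => by
      rw [Finset.mem_product, Finset.mem_product, Finset.mem_product] at hx
      exact Nat.mul_pos (hS0 _ hx.1.1) (hN0 _ hx.2.1))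
    (fun x hx => by
      rw [Finset.mem_product, Finset.mem_product, Finset.mem_product] at hx
      exact Nat.mul_pos (hS0 _ hx.1.2) (hN0 _ hx.2.2))
    (fun x hx => by
      rw [Finset.mem_product, Finset.mem_product, Finset.mem_product] at hx
      have h2 := (hS _ hx.1.1).2
      have h5 : (x.2.1 : ℝ) ≤ X := by exact_mod_cast (hN _ hx.2.1).2
      have h3 : ((min (x.1.1 * x.2.1) (x.1.2 * x.2.2) : ℕ) : ℝ) ≤ (x.1.1 : ℝ) * x.2.1 := by
        exact_mod_cast min_le_left _ _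
      have h6 : (x.1.1 : ℝ) * x.2.1 ≤ K0 * X := by gcongr
      linarith)
  rw [n1_mul, n1_uc, n1_uc] at h1
  have e : ∫ t : ℝ, (om τ H t : ℂ) * TP ((S ×ˢ S) ×ˢ (N ×ˢ N))
      (fun x => uc r x.1 * uc c x.2) (fun x => x.1.1 * x.2.1) (fun x => x.1.2 * x.2.2) t =
      ((∫ t, om τ H t * (‖RP S r t‖ ^ 2 * ‖RP N c t‖ ^ 2) : ℝ) : ℂ) := by
    rw [← integral_complex_ofReal]
    congr 1
    funext t
    rw [ofReal_mul, ofReal_mul, U_eq S r hS0 t, U_eq N c hN0 t,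
      TP_mul _ _ _ _ _ _ _ _ (fun x hx => hS0 _ (Finset.mem_product.mp hx).1)
        (fun x hx => hS0 _ (Finset.mem_product.mp hx).2)
        (fun x hx => hN0 _ (Finset.mem_product.mp hx).1)
        (fun x hx => hN0 _ (Finset.mem_product.mp hx).2)]
  rw [e] at h1
  have hd := diag_sq hS hN hℓ0 hℓ r c G hG0 hc hA
  set Dg := ∑ x ∈ ((S ×ˢ S) ×ˢ (N ×ˢ N)).filter
      (fun x => x.1.1 * x.2.1 = x.1.2 * x.2.2), uc r x.1 * uc c x.2 with hDg
  set I0 := ∫ t, om τ H t * (‖RP S r t‖ ^ 2 * ‖RP N c t‖ ^ 2) with hI0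
  have hsH : 0 ≤ Real.sqrt (2 * Real.pi) * H := by positivity
  have h2 : I0 ≤ Real.sqrt (2 * Real.pi) * H * ‖Dg‖ + Real.sqrt (2 * Real.pi) * H *
      (n1 S r ^ 2 * n1 N c ^ 2 * Real.exp (-(H ^ 2) / (8 * Y ^ 2))) := by
    have h3 : ‖(I0 : ℂ)‖ ≤ ‖(I0 : ℂ) - ((Real.sqrt (2 * Real.pi) * H : ℝ) : ℂ) * Dg‖ +
        ‖((Real.sqrt (2 * Real.pi) * H : ℝ) : ℂ) * Dg‖ := by
      have := norm_add_le ((I0 : ℂ) - ((Real.sqrt (2 * Real.pi) * H : ℝ) : ℂ) * Dg)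
        (((Real.sqrt (2 * Real.pi) * H : ℝ) : ℂ) * Dg)
      rwa [sub_add_cancel] at this
    rw [norm_mul, Complex.norm_real ((Real.sqrt (2 * Real.pi) * H)),
      Real.norm_of_nonneg hsH, Complex.norm_real, Real.norm_eq_abs] at h3
    have h4 := le_abs_self I0
    linarith
  have h4 := n1_sq_le S r hS hK
  have h5 := Real.exp_pos (-(H ^ 2) / (8 * Y ^ 2))
  have h6 : n1 S r ^ 2 * n1 N c ^ 2 * Real.exp (-(H ^ 2) / (8 * Y ^ 2)) ≤
      w1 S r * (n1 N c ^ 2 * (K0 * Real.exp (-(H ^ 2) / (8 * Y ^ 2)))) := by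
    calc _ ≤ (K0 * w1 S r) * n1 N c ^ 2 * Real.exp (-(H ^ 2) / (8 * Y ^ 2)) := by
          gcongr
      _ = _ := by ring
  have h7 := mul_le_mul_of_nonneg_left (add_le_add hd h6) hsH
  rw [mul_add] at h7
  linarith

/-- numerical facts -/
lemma nums2 (η : ℝ) (hη : 0 < η) (hη1 : η < 1) : ∃ T0 : ℝ, 10 ≤ T0 ∧ ∀ T : ℝ, T0 ≤ T → ∀ H : ℝ, T ^ (1 - η / 8) ≤ H →
    6 * T * (T ^ (η / 8) * Real.exp (-(H ^ 2) / (8 * (T ^ (1 - 7 * η / 8)) ^ 2))) ≤ 1 := by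
  have ev : ∀ᶠ T : ℝ in atTop, 2 * Real.log T + Real.log 6 ≤ T ^ η / 8 := by
    have h := (isLittleO_log_rpow_atTop hη).bound (show (0 : ℝ) < 1 / 48 by norm_num)
    have h2 := (tendsto_rpow_atTop hη).eventually_ge_atTop (16 * Real.log 6)
    filter_upwards [h, h2, eventually_ge_atTop 1] with T hT hT2 hT1
    rw [Real.norm_of_nonneg (Real.log_nonneg hT1), Real.norm_of_nonneg (by positivity)] at hT
    have : 0 ≤ T ^ η := by positivity
    linarith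
  obtain ⟨T1, hT1⟩ := eventually_atTop.1 ev
  refine ⟨max T1 10, le_max_right _ _, fun T hT H hH => ?_⟩
  have a1 := hT1 T ((le_max_left _ _).trans hT)
  have hT10 : 10 ≤ T := (le_max_right _ _).trans hT
  have hT0 : 0 < T := by linarith
  have hT1' : 1 ≤ T := by linarith
  have h1 : T ^ η ≤ H ^ 2 / (T ^ (1 - 7 * η / 8)) ^ 2 := by
    rw [le_div_iff₀ (by positivity), ← Real.rpow_natCast (T ^ (1 - 7 * η / 8)), ← Real.rpow_mul hT0.le, ← Real.rpow_add hT0]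
    calc T ^ (η + (1 - 7 * η / 8) * ((2 : ℕ) : ℝ)) ≤ T ^ ((1 - η / 8) * ((2 : ℕ) : ℝ)) := by
          apply Real.rpow_le_rpow_of_exponent_le hT1'
          push_cast
          nlinarith
      _ = (T ^ (1 - η / 8)) ^ 2 := by rw [Real.rpow_mul hT0.le, Real.rpow_natCast]
      _ ≤ H ^ 2 := pow_le_pow_left₀ (by positivity) hH 2
  have h2 : -(H ^ 2) / (8 * (T ^ (1 - 7 * η / 8)) ^ 2) ≤ -(T ^ η / 8) := by
    have e : -(H ^ 2) / (8 * (T ^ (1 - 7 * η / 8)) ^ 2) = -(H ^ 2 / (T ^ (1 - 7 * η / 8)) ^ 2 / 8) := by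
      rw [neg_div, div_div, mul_comm (8 : ℝ)]
    rw [e]
    linarith
  have h3 : T ^ (η / 8) ≤ T := by
    calc T ^ (η / 8) ≤ T ^ (1 : ℝ) := Real.rpow_le_rpow_of_exponent_le hT1' (by linarith)
      _ = T := Real.rpow_one T
  calc 6 * T * (T ^ (η / 8) * Real.exp (-(H ^ 2) / (8 * (T ^ (1 - 7 * η / 8)) ^ 2))) ≤
      6 * T * (T * Real.exp (-(T ^ η / 8))) := by gcongr
    _ = Real.exp (Real.log 6) * Real.exp (Real.log T) * (Real.exp (Real.log T) * Real.exp (-(T ^ η / 8))) := by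
        rw [Real.exp_log hT0, Real.exp_log (by norm_num)]
    _ = Real.exp (Real.log 6 + Real.log T + (Real.log T + -(T ^ η / 8))) := by
        rw [← Real.exp_add, ← Real.exp_add, ← Real.exp_add]
    _ ≤ 1 := Real.exp_le_one_iff.2 (by linarith)

/-- **the second moment of the prime side at frequency zero** -/
theorem sm2 (hch : S_ch) (η : ℝ) (hη : 0 < η) (hη1 : η < 1) :
    ∃ δ T0 C : ℝ, 0 < δ ∧ δ ≤ 1 / 8 ∧ 10 ≤ T0 ∧ 0 < C ∧ ∀ T : ℝ, T0 ≤ T →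
    ∀ a : ℕ → ℂ, (∀ n, ‖a n‖ ≤ ArithmeticFunction.vonMangoldt n) →
    ∀ S : Finset ℕ, Len S (T ^ δ) → ∀ r : ℕ → ℂ,
    ∀ (b : ℝ) (W : ℂ → ℂ) (w : ℝ → ℂ), BW b W w → 0 < b → b ≤ Real.log T →
      ∀ τ H : ℝ, T ^ (1 - δ) ≤ H →
      Integrable (fun t : ℝ => rh τ H S r t * ‖PD a ⌊T ^ (1 - η)⌋₊ w (Real.log T) 0 t - Real.log T * gs w 0‖ ^ 2) ∧
      ∫ t : ℝ, rh τ H S r t * ‖PD a ⌊T ^ (1 - η)⌋₊ w (Real.log T) 0 t - Real.log T * gs w 0‖ ^ 2 ≤
        C * (mr H S r * (Real.log T * q2 w)) := by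
  obtain ⟨C, hC, hch⟩ := hch
  obtain ⟨T1, hT1, hnum⟩ := nums2 η hη hη1
  refine ⟨η / 8, T1, 8 * C, by positivity, by linarith, hT1, by positivity, ?_⟩
  intro T hT a ha S hS r b W w hBW hb hbL τ H hH
  have hE := hnum T hT H hH
  have hT0 : 0 < T := by linarith
  have hT1 : 1 ≤ T := by linarith
  have hH0 : 0 < H := lt_of_lt_of_le (by positivity) hH
  have hK1 : 1 ≤ T ^ (η / 8) := Real.one_le_rpow hT1 (by positivity)
  have hL1 : 1 ≤ Real.log T := by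
    rw [Real.le_log_iff_exp_le hT0]
    have := Real.exp_one_lt_d9
    linarith
  obtain ⟨-, -, hch⟩ := hch b W w hb hBW
  have hq : 0 ≤ q2 w := integral_nonneg fun v => sq_nonneg _
  have hX1 : ((⌊T ^ (1 - η)⌋₊ : ℕ) : ℝ) ≤ T ^ (1 - η) := Nat.floor_le (by positivity)
  have hXT : ((⌊T ^ (1 - η)⌋₊ : ℕ) : ℝ) ≤ T := by
    refine hX1.trans ?_
    calc T ^ (1 - η) ≤ T ^ (1 : ℝ) := Real.rpow_le_rpow_of_exponent_le hT1 (by linarith)
      _ = T := Real.rpow_one T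
  have hKX : T ^ (η / 8) * ((⌊T ^ (1 - η)⌋₊ : ℕ) : ℝ) ≤ T ^ (1 - 7 * η / 8) := by
    calc T ^ (η / 8) * ((⌊T ^ (1 - η)⌋₊ : ℕ) : ℝ) ≤ T ^ (η / 8) * T ^ (1 - η) :=
          mul_le_mul_of_nonneg_left hX1 (by positivity)
      _ = T ^ (1 - 7 * η / 8) := by
          rw [← Real.rpow_add hT0]
          congr 1
          ring
  have hlog : Real.log (T ^ (η / 8) * ((⌊T ^ (1 - η)⌋₊ : ℕ) : ℝ)) ≤ Real.log T := by
    rcases Nat.eq_zero_or_pos ⌊T ^ (1 - η)⌋₊ with h0 | h0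
    · rw [h0]
      simp only [Nat.cast_zero, mul_zero, Real.log_zero]
      linarith
    · have h0' : (0 : ℝ) < ((⌊T ^ (1 - η)⌋₊ : ℕ) : ℝ) := by exact_mod_cast h0
      apply Real.log_le_log (by positivity)
      refine hKX.trans ?_
      calc T ^ (1 - 7 * η / 8) ≤ T ^ (1 : ℝ) := Real.rpow_le_rpow_of_exponent_le hT1 (by linarith)
        _ = T := Real.rpow_one T
  generalize ⌊T ^ (1 - η)⌋₊ = X at *
  have hN : ∀ n ∈ Finset.Icc 1 X, 0 < n ∧ n ≤ X := fun n hn => by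
    rw [Finset.mem_Icc] at hn
    exact ⟨hn.1, hn.2⟩
  have ha1 := hch X 0 (fun n => 0 - Real.log n) (Or.inl fun n => rfl)
  have hb1 := hch X 0 (fun n => 0 + Real.log n) (Or.inr fun n => rfl)
  have key : ∀ (c : ℕ → ℂ) (G : ℕ → ℝ), (∀ n, 0 ≤ G n) → (∀ n, ‖c n‖ ≤ lam n * G n) →
      ∑ n ∈ Finset.Icc 1 X, ArithmeticFunction.vonMangoldt n / n * G n ^ 2 ≤ C * q2 w →
      ∫ t, om τ H t * (‖RP S r t‖ ^ 2 * ‖RP (Finset.Icc 1 X) c t‖ ^ 2) ≤
        2 * C * (mr H S r * (Real.log T * q2 w)) := by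
    intro c G hG0 hc hA
    have h1 := om_sq S (Finset.Icc 1 X) r c (τ := τ) hH0 hK1 hS hN G hG0 hc hA (by linarith) hlog hKX
    have h2 := n1_CS (X := X) (Finset.Icc 1 X) (Finset.Subset.refl _) c G hG0 hc hA
    have h3 : n1 (Finset.Icc 1 X) c ^ 2 ≤ C * q2 w * (6 * X) := by
      have h4 := pow_le_pow_left₀ (n1_nonneg _ _) h2 2
      rwa [Real.sq_sqrt (by positivity)] at h4
    have h5 : n1 (Finset.Icc 1 X) c ^ 2 * (T ^ (η / 8) * Real.exp (-(H ^ 2) / (8 * (T ^ (1 - 7 * η / 8)) ^ 2))) ≤ C * q2 w := by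
      calc _ ≤ C * q2 w * (6 * X) * (T ^ (η / 8) * Real.exp (-(H ^ 2) / (8 * (T ^ (1 - 7 * η / 8)) ^ 2))) := by gcongr
        _ ≤ C * q2 w * (6 * T) * (T ^ (η / 8) * Real.exp (-(H ^ 2) / (8 * (T ^ (1 - 7 * η / 8)) ^ 2))) := by gcongr
        _ = C * q2 w * (6 * T * (T ^ (η / 8) * Real.exp (-(H ^ 2) / (8 * (T ^ (1 - 7 * η / 8)) ^ 2)))) := by ring
        _ ≤ C * q2 w * 1 := mul_le_mul_of_nonneg_left hE (by positivity)
        _ = _ := mul_one _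
    have hw := w1_nonneg S r
    refine h1.trans ?_
    unfold mr
    calc Real.sqrt (2 * Real.pi) * H * (w1 S r * (Real.log T * (C * q2 w)) +
        w1 S r * (n1 (Finset.Icc 1 X) c ^ 2 * (T ^ (η / 8) * Real.exp (-(H ^ 2) / (8 * (T ^ (1 - 7 * η / 8)) ^ 2))))) ≤
        Real.sqrt (2 * Real.pi) * H * (w1 S r * (Real.log T * (C * q2 w)) + w1 S r * (C * q2 w)) := by gcongr
      _ ≤ Real.sqrt (2 * Real.pi) * H * (w1 S r * (Real.log T * (C * q2 w)) + w1 S r * (Real.log T * (C * q2 w))) := by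
          have h6 : C * q2 w ≤ Real.log T * (C * q2 w) := le_mul_of_one_le_left (by positivity) hL1
          gcongr
      _ = _ := by ring
  have sa := key (ca a w) (fun n => ‖gs w (0 - Real.log n)‖) (fun n => norm_nonneg _) (ca_G ha) ha1.2.1
  have sb := key (cb a w) (fun n => ‖gs w (0 + Real.log n)‖) (fun n => norm_nonneg _) (cb_G ha) hb1.2.1
  -- integrability
  have hint : ∀ c : ℕ → ℂ, Integrable (fun t => om τ H t * (‖RP S r t‖ ^ 2 * ‖RP (Finset.Icc 1 X) c t‖ ^ 2)) := by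
    intro c
    have h2 : Continuous (fun t => RP S r t) := TP_cont _ _ _ _
    have h3 : Continuous (fun t => RP (Finset.Icc 1 X) c t) := TP_cont _ _ _ _
    refine TC.om_mul_integrable (K := n1 S r ^ 2 * n1 (Finset.Icc 1 X) c ^ 2) hH0 ((h2.norm.pow 2).mul (h3.norm.pow 2)) fun t => ?_
    rw [abs_of_nonneg (by positivity)]
    have h4 : ‖RP S r t‖ ≤ n1 S r := TP_norm_le _ _ _ _ _
    have h5 : ‖RP (Finset.Icc 1 X) c t‖ ≤ n1 (Finset.Icc 1 X) c := TP_norm_le _ _ _ _ _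
    gcongr
  have hpt : ∀ t, rh τ H S r t * ‖PD a X w (Real.log T) 0 t - Real.log T * gs w 0‖ ^ 2 ≤
      2 * (om τ H t * (‖RP S r t‖ ^ 2 * ‖RP (Finset.Icc 1 X) (ca a w) t‖ ^ 2)) +
      2 * (om τ H t * (‖RP S r t‖ ^ 2 * ‖RP (Finset.Icc 1 X) (cb a w) t‖ ^ 2)) := by
    intro t
    have h1 : PD a X w (Real.log T) 0 t - Real.log T * gs w 0 =
        -(RP (Finset.Icc 1 X) (ca a w) t + conj (RP (Finset.Icc 1 X) (cb a w) t)) := by
      rw [PD_eq]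
      ring
    rw [h1, norm_neg]
    have h2 := norm_add_le (RP (Finset.Icc 1 X) (ca a w) t) (conj (RP (Finset.Icc 1 X) (cb a w) t))
    rw [RCLike.norm_conj] at h2
    have h3 := pow_le_pow_left₀ (norm_nonneg _) h2 2
    have h4 : (‖RP (Finset.Icc 1 X) (ca a w) t‖ + ‖RP (Finset.Icc 1 X) (cb a w) t‖) ^ 2 ≤
        2 * ‖RP (Finset.Icc 1 X) (ca a w) t‖ ^ 2 + 2 * ‖RP (Finset.Icc 1 X) (cb a w) t‖ ^ 2 := by
      nlinarith [sq_nonneg (‖RP (Finset.Icc 1 X) (ca a w) t‖ - ‖RP (Finset.Icc 1 X) (cb a w) t‖)]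
    have h5 := mul_le_mul_of_nonneg_left (h3.trans h4) (rh_nonneg τ H S r t)
    refine h5.trans (le_of_eq ?_)
    unfold rh
    ring
  have hi2 : Integrable (fun t => 2 * (om τ H t * (‖RP S r t‖ ^ 2 * ‖RP (Finset.Icc 1 X) (ca a w) t‖ ^ 2)) +
      2 * (om τ H t * (‖RP S r t‖ ^ 2 * ‖RP (Finset.Icc 1 X) (cb a w) t‖ ^ 2))) :=
    ((hint _).const_mul 2).add ((hint _).const_mul 2)
  have hi1 : Integrable (fun t : ℝ => rh τ H S r t * ‖PD a X w (Real.log T) 0 t - Real.log T * gs w 0‖ ^ 2) := by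
    have hcont : Continuous (fun t : ℝ => rh τ H S r t * ‖PD a X w (Real.log T) 0 t - Real.log T * gs w 0‖ ^ 2) := by
      have h1 : Continuous (fun t : ℝ => PD a X w (Real.log T) 0 t) := by
        simp_rw [PD_eq]
        have h2 : Continuous (fun t => RP (Finset.Icc 1 X) (ca a w) t) := TP_cont _ _ _ _
        have h3 : Continuous (fun t => RP (Finset.Icc 1 X) (cb a w) t) := TP_cont _ _ _ _
        exact (continuous_const.sub h2).sub (Complex.continuous_conj.comp h3)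
      exact (rh_cont τ H S r).mul ((h1.sub continuous_const).norm.pow 2)
    refine hi2.mono' hcont.aestronglyMeasurable (Eventually.of_forall fun t => ?_)
    rw [Real.norm_of_nonneg (mul_nonneg (rh_nonneg τ H S r t) (sq_nonneg _))]
    exact hpt t
  refine ⟨hi1, ?_⟩
  refine (integral_mono hi1 hi2 hpt).trans ?_
  rw [integral_add ((hint _).const_mul 2) ((hint _).const_mul 2), integral_const_mul, integral_const_mul]
  linarith

end Pool.Agent.Run7.h609.CW
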