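import Pool.Agent.N802.WD.Core6
import Pool.Agent.Run7.h609.CW.Sm

/-!
# The number of zeros in a window of length `h ≥ H₀ / log T` is rarely larger than expected, in every weight `|R|²`,
Gaussian weights (helper609)
-/

set_option linter.unusedVariables false
set_option maxHeartbeats 4000000

open Complex Filter Topology Set MeasureTheory
open scoped BigOperators ComplexConjugate

namespace Pool.Agent.Run7.h609.CW

open H370 hiding pt
open TC Pool.Agent.N802.U Pool.Agent.N802 Pool.Agent.N802.WD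

/-- **CONC**: the excess over the expected number -/
def S_conc (F : ℂ → ℂ) : Prop := ∀ ε : ℝ, 0 < ε → ε < 1 →
  ∃ δ H0 T0 : ℝ, 0 < δ ∧ 0 < H0 ∧ 10 ≤ T0 ∧ ∀ T : ℝ, T0 ≤ T →
  ∃ U1 U2 : ℝ, T ≤ U1 ∧ U1 ≤ T + 1 ∧ 2 * T - 1 ≤ U2 ∧ U2 ≤ 2 * T ∧
  ∀ h : ℝ, H0 / Real.log T ≤ h → h ≤ δ →
  ∀ S : Finset ℕ, Len S (T ^ δ) → ∀ (r : ℕ → ℂ) (τ H : ℝ), T ^ (1 - δ) ≤ H →
  (∫ t in (T + Real.log T)..(2 * T - Real.log T), rh τ H S r t *
      max 0 (na F U1 U2 h t - (1 + ε) * (h * Real.log T / Real.pi))) ≤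
    ε * (mr H S r * (h * Real.log T / Real.pi))

/-- Cauchy's inequality for the integral of `ρ f` -/
lemma cs_int {ρ f : ℝ → ℝ} (hρ : Continuous ρ) (hρ0 : ∀ t, 0 ≤ ρ t) (hf : Continuous f) {a b M V : ℝ} (hab : a ≤ b)
    (hM : ∫ t in a..b, ρ t ≤ M) (hV : ∫ t in a..b, ρ t * f t ^ 2 ≤ V) (hM0 : 0 < M) (hV0 : 0 < V) :
    ∫ t in a..b, ρ t * f t ≤ Real.sqrt (M * V) := by
  -- `2 f ≤ λ + f² / λ`, `λ = √(V / M)`
  set lm : ℝ := Real.sqrt (V / M) with hlm
  have hl0 : 0 < lm := Real.sqrt_pos.2 (by positivity)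
  have i1 : IntervalIntegrable (fun t => ρ t * f t) volume a b := (hρ.mul hf).intervalIntegrable _ _
  have i2 : IntervalIntegrable (fun t => (lm / 2) * ρ t + (1 / (2 * lm)) * (ρ t * f t ^ 2)) volume a b :=
    ((continuous_const.mul hρ).add (continuous_const.mul (hρ.mul (hf.pow 2)))).intervalIntegrable _ _
  have h1 : ∫ t in a..b, ρ t * f t ≤ ∫ t in a..b, ((lm / 2) * ρ t + (1 / (2 * lm)) * (ρ t * f t ^ 2)) := by
    apply intervalIntegral.integral_mono_on hab i1 i2
    intro t _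
    have h2 : f t ≤ lm / 2 + 1 / (2 * lm) * f t ^ 2 := by
      have h3 : lm / 2 + 1 / (2 * lm) * f t ^ 2 - f t = (lm - f t) ^ 2 / (2 * lm) := by
        field_simp
        ring
      have : 0 ≤ (lm - f t) ^ 2 / (2 * lm) := by positivity
      linarith
    have h4 := mul_le_mul_of_nonneg_left h2 (hρ0 t)
    refine h4.trans (le_of_eq ?_)
    ring
  have i3 : IntervalIntegrable (fun t => (lm / 2) * ρ t) volume a b := (continuous_const.mul hρ).intervalIntegrable _ _
  have i4 : IntervalIntegrable (fun t => (1 / (2 * lm)) * (ρ t * f t ^ 2)) volume a b :=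
    (continuous_const.mul (hρ.mul (hf.pow 2))).intervalIntegrable _ _
  rw [intervalIntegral.integral_add i3 i4, intervalIntegral.integral_const_mul,
    intervalIntegral.integral_const_mul] at h1
  refine h1.trans ?_
  have h5 : lm / 2 * (∫ t in a..b, ρ t) ≤ lm / 2 * M := mul_le_mul_of_nonneg_left hM (by positivity)
  have h6 : 1 / (2 * lm) * (∫ t in a..b, ρ t * f t ^ 2) ≤ 1 / (2 * lm) * V :=
    mul_le_mul_of_nonneg_left hV (by positivity)
  have h7 : lm * M = Real.sqrt (M * V) := by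
    have h8 : M * V = (V / M) * M ^ 2 := by field_simp
    rw [h8, Real.sqrt_mul (by positivity), Real.sqrt_sq hM0.le]
  have h9 : V / lm = Real.sqrt (M * V) := by
    rw [div_eq_iff hl0.ne', ← h7, mul_assoc, mul_comm M lm, ← mul_assoc, Real.mul_self_sqrt (by positivity)]
    field_simp
  calc _ ≤ lm / 2 * M + 1 / (2 * lm) * V := add_le_add h5 h6
    _ = (lm * M + V / lm) / 2 := by
        field_simp
    _ = Real.sqrt (M * V) := by
        rw [h7, h9]
        ring

theorem conc (hwin : S_win2) (hsq : S_sq) (hpl : S_pl) (hgs : S_gs) (hch : S_ch)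
    {F : ℂ → ℂ} (hF : GoodL F) (hef : S_ef F) (hew : S_ew F) : S_conc F := by
  intro ε hε hε1
  have hπ := Real.pi_pos
  have hπ3 := Real.pi_gt_three
  obtain ⟨θ, Ce, δe, Te, hθ0, hθ1, hCe, hδe, hTe, hew⟩ := hew
  obtain ⟨a, CE, ha, hCE, hef⟩ := hef
  obtain ⟨η, hη, hη10', hηθ, hηε⟩ : ∃ η : ℝ, 0 < η ∧ η ≤ 1 / 10 ∧ η ≤ θ / 2 ∧
      η ≤ ε / 100 := by
    refine ⟨min (1 / 10) (min (θ / 2) (ε / 100)), ?_, ?_, ?_, ?_⟩
    · exact lt_min (by norm_num) (lt_min (by positivity) (by positivity))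
    · exact min_le_left _ _
    · exact (min_le_right _ _).trans (min_le_left _ _)
    · exact (min_le_right _ _).trans (min_le_right _ _)
  obtain ⟨δ2, T2, Cf, hδ2, hδ28, hT2, hCf, hsm⟩ := sm2 hch η hη (by linarith)
  obtain ⟨T3, hT3, hef⟩ := hef η hη (by linarith)
  obtain ⟨T4, hT4, hmass⟩ := rh_mass
  -- the exponent of the window
  obtain ⟨n, hn1, hnθ⟩ : ∃ n : ℕ, 1 ≤ n ∧ 2 ≤ ((2 * n - 1 : ℕ) : ℝ) * θ := by
    refine ⟨⌈1 / θ⌉₊ + 1, by omega, ?_⟩
    have h1 : (2 * (⌈1 / θ⌉₊ + 1) - 1 : ℕ) = 2 * ⌈1 / θ⌉₊ + 1 := by omega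
    rw [h1]
    have h2 := Nat.le_ceil (1 / θ)
    push_cast
    have h3 : 1 ≤ (⌈1 / θ⌉₊ : ℝ) * θ := by rwa [div_le_iff₀ hθ0] at h2
    linarith
  obtain ⟨C, hC, htw⟩ := twd hwin hsq hpl hgs n hn1
  obtain ⟨ε', A, κ, hε'0, hε'1, hε'2, hε'3, hA, hfar, hκ, hκ1, hph⟩ := pars hε hCe hη hηθ hC
  obtain ⟨X1, H1, δw, hX1, hXH, hδw, htw⟩ := htw η ε' A κ hη hη10' hε'0 hε'1 hA hκ hκ1
  have hX10 : 0 < X1 := by linarith
  have hC0 : 0 < C := by linarith
  -- the width
  obtain ⟨H0, hH0⟩ : ∃ H0 : ℝ, H0 = H1 + 16 * Real.pi * CE / ε + 8 * Ce * X1 + X1 + 512 * Real.pi ^ 2 * Cf / ε ^ 2 := ⟨_, rfl⟩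
  have g1 : 0 < 16 * Real.pi * CE / ε := by positivity
  have g2 : 0 < 8 * Ce * X1 := by positivity
  have g3 : 0 < 512 * Real.pi ^ 2 * Cf / ε ^ 2 := by positivity
  have hH1' : 0 < H1 := by linarith
  have hH00 : 0 < H0 := by rw [hH0]; linarith
  obtain ⟨δ, hδ0, hδ2', hδe', hδw', hδ8⟩ : ∃ δ : ℝ, 0 < δ ∧ δ ≤ δ2 ∧ δ ≤ δe ∧
      δ ≤ δw ∧ δ ≤ 1 / 8 := by
    refine ⟨min (min δ2 (1 / 8)) (min δe δw), ?_, ?_, ?_, ?_, ?_⟩
    · exact lt_min (lt_min hδ2 (by norm_num)) (lt_min hδe hδw)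
    · exact (min_le_left _ _).trans (min_le_left _ _)
    · exact (min_le_right _ _).trans (min_le_left _ _)
    · exact (min_le_right _ _).trans (min_le_right _ _)
    · exact (min_le_left _ _).trans (min_le_right _ _)
  have ev : ∀ᶠ T : ℝ in atTop, max (max 100 X1) (max (4 * C * X1 / ε') (A / ε')) ≤ Real.log T ∧
      Real.log T ≤ T / 4 := by
    have e1 := Real.tendsto_log_atTop.eventually_ge_atTop (max (max 100 X1)
      (max (4 * C * X1 / ε') (A / ε')))
    have e3 : ∀ᶠ T : ℝ in atTop, Real.log T ≤ T / 4 := by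
      have h := Real.isLittleO_log_id_atTop.bound (show (0 : ℝ) < 1 / 4 by norm_num)
      filter_upwards [h, eventually_ge_atTop 1] with T hT hT1
      simp only [id] at hT
      rw [Real.norm_of_nonneg (Real.log_nonneg hT1), Real.norm_of_nonneg (by linarith)] at hT
      linarith
    exact e1.and e3
  obtain ⟨T5, hT5⟩ := eventually_atTop.1 ev
  refine ⟨δ, H0, max (max T2 (max T3 T4)) (max Te T5), hδ0, hH00,
    hT2.trans ((le_max_left _ _).trans (le_max_left _ _)), fun T hT => ?_⟩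
  have gT2 : T2 ≤ T := ((le_max_left _ _).trans (le_max_left _ _)).trans hT
  have gT3 : T3 ≤ T := ((le_max_left _ _).trans ((le_max_right _ _).trans (le_max_left _ _))).trans hT
  have gT4 : T4 ≤ T := ((le_max_right _ _).trans ((le_max_right _ _).trans (le_max_left _ _))).trans hT
  have gTe : Te ≤ T := ((le_max_left _ _).trans (le_max_right _ _)).trans hT
  have gT5 : T5 ≤ T := ((le_max_right _ _).trans (le_max_right _ _)).trans hT
  obtain ⟨hLL, hLT⟩ := hT5 T gT5
  have hT10 : 10 ≤ T := hT2.trans gT2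
  have hT0 : 0 < T := by linarith
  have hL100 : 100 ≤ Real.log T := ((le_max_left _ _).trans (le_max_left _ _)).trans hLL
  have hLX : X1 ≤ Real.log T := ((le_max_right _ _).trans (le_max_left _ _)).trans hLL
  have hLa : 4 * C * X1 / ε' ≤ Real.log T :=
    ((le_max_left _ _).trans (le_max_right _ _)).trans hLL
  have hLb : A / ε' ≤ Real.log T :=
    ((le_max_right _ _).trans (le_max_right _ _)).trans hLL
  obtain ⟨U1, U2, hU1, hU1', hU2, hU2', hef⟩ := hef T gT3
  refine ⟨U1, U2, hU1, hU1', hU2, hU2', fun h hh1 hh2 S hS r τ H hH => ?_⟩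
  obtain ⟨L, hL⟩ : ∃ L : ℝ, L = Real.log T := ⟨_, rfl⟩
  rw [← hL] at hL100 hLX hLa hLb hLT hef hh1 ⊢
  have hLpos : 0 < L := by linarith
  have hhL : H0 ≤ h * L := by rwa [div_le_iff₀ hLpos] at hh1
  have hh0 : 0 < h := lt_of_lt_of_le (by positivity) hh1
  have hh8 : h ≤ 1 / 8 := hh2.trans hδ8
  have hh1b : h ≤ 1 := by linarith
  obtain ⟨G, w, Gp, gp, hTw⟩ := htw L hL100 h (by
    refine le_trans ?_ hh1
    have : H1 ≤ H0 := by rw [hH0]; linarith
    gcongr) (hh2.trans hδw')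
  have hN : NumD η ε' L h A X1 κ C θ n := by
    refine ⟨hL100, hη, hηθ, hθ0, hθ1, hε'0, hε'1, hh0, by linarith, hC, hX1, hn1, hnθ, hfar, hph,
      ?_, ?_⟩
    · rw [div_le_iff₀ hε'0] at hLa
      linarith
    · rw [div_le_iff₀ hε'0] at hLb
      linarith
  have hT1' : (1 : ℝ) ≤ T := by linarith
  have hwd : ∀ d : ℝ, δ ≤ d → T ^ (1 - d) ≤ H := fun d hd =>
    (Real.rpow_le_rpow_of_exponent_le hT1' (by linarith)).trans hH
  have hw1 := w1_nonneg S r
  have hS2 : Len S (T ^ δ2) := Len_mono hS (Real.rpow_le_rpow_of_exponent_le hT1' hδ2')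
  have hSe : Len S (T ^ δe) := Len_mono hS (Real.rpow_le_rpow_of_exponent_le hT1' hδe')
  have hS3 : Len S (T ^ (1 / 8 : ℝ)) := Len_mono hS (Real.rpow_le_rpow_of_exponent_le hT1' hδ8)
  have hM := hmass T gT4 S hS3 r τ H (by
    have := hwd (1 / 8) hδ8
    norm_num at this ⊢
    exact this)
  have hab : T + L ≤ 2 * T - L := by linarith
  have hH0' : 0 < H := lt_of_lt_of_le (by positivity) hH
  have hm0 : 0 ≤ mr H S r := by unfold mr; positivity
  have hρc := rh_cont τ H S r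
  have hρ0 := rh_nonneg τ H S r
  obtain ⟨hDi, hDv⟩ := hsm T gT2 a ha S hS2 r (η * L / 2) Gp gp hTw.bwp (by positivity) (by
    rw [← hL]
    nlinarith only [hη10', hη, hLpos]) τ H (hwd δ2 hδ2')
  rw [← hL] at hDi hDv
  set D : ℝ → ℝ := fun t => ‖PD a ⌊T ^ (1 - η)⌋₊ gp L 0 t - L * gs gp 0‖ with hD
  have hDc : Continuous D := by
    simp only [hD]
    have h1 : Continuous (fun t : ℝ => PD a ⌊T ^ (1 - η)⌋₊ gp L 0 t) := by
      simp_rw [FMaux.PD_eq]
      have h2 : Continuous (fun t => RP (Finset.Icc 1 ⌊T ^ (1 - η)⌋₊) (FMaux.ca a gp) t) := TP_cont _ _ _ _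
      have h3 : Continuous (fun t => RP (Finset.Icc 1 ⌊T ^ (1 - η)⌋₊) (FMaux.cb a gp) t) := TP_cont _ _ _ _
      exact (continuous_const.sub h2).sub (Complex.continuous_conj.comp h3)
    exact (h1.sub continuous_const).norm
  set m := mr H S r with hmd
  have hq0 : 0 ≤ q2 gp := integral_nonneg fun v => sq_nonneg _
  -- the error terms
  have hew' := hew T gTe S hSe r τ H (hwd δe hδe') U1 U2 hU1 hU1' hU2 hU2' X1 h hX1
    (by rw [← hL]; exact hLX) hh0.le hh1b
  rw [← hL, ← hmd] at hew'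
  obtain ⟨hEA, -⟩ := hew'
  have hX0 := hN.X0
  have hEA' : ∫ t in (T + L)..(2 * T - L), rh τ H S r t * EA F U1 U2 θ L (X1 / L) h t ≤
      Ce * (h * L + X1) * m := by
    refine le_trans ?_ hEA
    apply intervalIntegral.integral_mono_interval (by linarith) hab (by linarith)
    · exact Eventually.of_forall fun t => mul_nonneg (hρ0 t) (EA_nonneg F U1 U2 hX0 θ L h t)
    · exact EA_int F U1 U2 hρc hX0 θ L h _ _
  have hU11 : (1 : ℝ) ≤ U1 := by linarith
  -- mass
  have hmass' : ∫ t in (T + L)..(2 * T - L), rh τ H S r t ≤ 2 * m := by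
    refine le_trans ?_ hM
    rw [intervalIntegral.integral_of_le hab]
    exact setIntegral_le_integral (rh_intg hH0' S r) (Eventually.of_forall hρ0)
  have hvar : ∫ t in (T + L)..(2 * T - L), rh τ H S r t * D t ^ 2 ≤ Cf * (m * (L * h)) := by
    have h1 : ∫ t in (T + L)..(2 * T - L), rh τ H S r t * D t ^ 2 ≤ ∫ t : ℝ, rh τ H S r t * D t ^ 2 := by
      rw [intervalIntegral.integral_of_le hab]
      exact setIntegral_le_integral hDi (Eventually.of_forall fun t => mul_nonneg (hρ0 t) (sq_nonneg _))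
    refine h1.trans (hDv.trans ?_)
    have := hTw.qp
    gcongr
  set U := m * (h * L / Real.pi) with hUd
  have hU0 : 0 ≤ U := by positivity
  -- the case of mass zero
  rcases hm0.eq_or_lt with hm00 | hm00
  · -- all is zero: `w1 = 0`
    have hz : ∀ t, rh τ H S r t = 0 := by
      have h1 : w1 S r = 0 := by
        have h2 : Real.sqrt (2 * Real.pi) * H * w1 S r = 0 := by
          have : mr H S r = 0 := by rw [← hmd, ← hm00]
          exact this
        have h3 : Real.sqrt (2 * Real.pi) * H ≠ 0 := by positivity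
        exact (mul_eq_zero.1 h2).resolve_left h3
      intro t
      have h4 := RP_sq_le hT1' hδ0 hS r t
      rw [h1, mul_zero] at h4
      have h5 : ‖RP S r t‖ ^ 2 = 0 := le_antisymm h4 (sq_nonneg _)
      unfold rh
      rw [h5, mul_zero]
    simp_rw [hz]
    simp only [zero_mul, intervalIntegral.integral_zero]
    positivity
  -- Cauchy
  have hcs : ∫ t in (T + L)..(2 * T - L), rh τ H S r t * D t ≤ ε / 16 * U := by
    have h1 := cs_int hρc hρ0 hDc hab hmass' hvar (by positivity) (by positivity)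
    refine h1.trans ?_
    apply Real.sqrt_le_iff.2
    refine ⟨by positivity, ?_⟩
    have h2 : 512 * Real.pi ^ 2 * Cf / ε ^ 2 ≤ h * L := by
      refine le_trans ?_ hhL
      rw [hH0]; linarith
    rw [div_le_iff₀ (by positivity)] at h2
    have h3 : (ε / 16 * U) ^ 2 = m ^ 2 * (h * L) * ((h * L * ε ^ 2) / (256 * Real.pi ^ 2)) := by
      rw [hUd]
      field_simp
      ring
    rw [h3]
    have h4 : 2 * Cf ≤ (h * L * ε ^ 2) / (256 * Real.pi ^ 2) := by
      rw [le_div_iff₀ (by positivity)]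
      linarith
    calc 2 * m * (Cf * (m * (L * h))) = m ^ 2 * (h * L) * (2 * Cf) := by ring
      _ ≤ _ := mul_le_mul_of_nonneg_left h4 (by positivity)
  -- pointwise
  have hpt : ∀ t ∈ Set.Icc (T + L) (2 * T - L),
      rh τ H S r t * max 0 (na F U1 U2 h t - (1 + ε) * (h * L / Real.pi)) ≤
      2 * (rh τ H S r t * D t) + (2 * CE) * rh τ H S r t + (2 * ε') * (rh τ H S r t * EA F U1 U2 θ L (X1 / L) h t) := by
    intro t ht
    have h1 := na_up6 (U2 := U2) hF hU11 hTw hN t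
    have h2 := hef (η * L / 2) Gp gp hTw.bwp 0 t (by
      rw [abs_zero, zero_add]
      nlinarith only [hη10', hη, hLpos]) ht.1 ht.2
    have e0 : cexp (I * ((0 : ℝ) : ℂ) * t) = 1 := by simp
    rw [e0, one_mul] at h2
    have h3 : (SS F U1 U2 Gp 0 t).re ≤ L * (gs gp 0).re + D t + CE * Real.sqrt (q2 gp) := by
      have h4 : SS F U1 U2 Gp 0 t = (SS F U1 U2 Gp ((0 : ℝ) : ℝ) t - PD a ⌊T ^ (1 - η)⌋₊ gp L 0 t) +
          (PD a ⌊T ^ (1 - η)⌋₊ gp L 0 t - L * gs gp 0) + L * gs gp 0 := by ring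
      rw [h4, Complex.add_re, Complex.add_re, Complex.re_ofReal_mul]
      have h5 := (Complex.re_le_norm (SS F U1 U2 Gp ((0 : ℝ) : ℝ) t - PD a ⌊T ^ (1 - η)⌋₊ gp L 0 t)).trans h2
      have h6 := Complex.re_le_norm (PD a ⌊T ^ (1 - η)⌋₊ gp L 0 t - L * gs gp 0)
      have h7 : ‖PD a ⌊T ^ (1 - η)⌋₊ gp L 0 t - L * gs gp 0‖ = D t := rfl
      rw [h7] at h6
      linarith
    have h4 : Real.sqrt (q2 gp) ≤ 1 := by
      rw [Real.sqrt_le_one]
      exact hTw.qp.trans hh1b
    have h5 : L * (gs gp 0).re ≤ (1 + η) * (h * L / Real.pi) := by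
      calc L * (gs gp 0).re ≤ L * ((1 + η) * (h / Real.pi)) := mul_le_mul_of_nonneg_left hTw.hi hLpos.le
        _ = _ := by ring
    have hD0 : 0 ≤ D t := norm_nonneg _
    have hEA0 := EA_nonneg F U1 U2 hX0 θ L h t
    set u := h * L / Real.pi with hu
    have hu0 : 0 ≤ u := by positivity
    set Ea := EA F U1 U2 θ L (X1 / L) h t with hEa
    set nn := na F U1 U2 h t with hnn
    have h6 : (1 - ε') * nn ≤ (1 + η) * u + D t + CE + ε' * Ea := by
      have : CE * Real.sqrt (q2 gp) ≤ CE := by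
        calc _ ≤ CE * 1 := mul_le_mul_of_nonneg_left h4 hCE.le
          _ = CE := mul_one _
      linarith
    have h7 : (1 + η) * u ≤ (1 - ε') * ((1 + ε) * u) := by
      have : 1 + η ≤ (1 - ε') * (1 + ε) := by
        nlinarith only [hηε, hε'2, hε'0, hε, hε1, mul_nonneg hε'0.le (sub_nonneg.2 hε1.le)]
      calc (1 + η) * u ≤ ((1 - ε') * (1 + ε)) * u := mul_le_mul_of_nonneg_right this hu0
        _ = _ := by ring
    have h8 : (1 - ε') * (nn - (1 + ε) * u) ≤ D t + CE + ε' * Ea := by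
      have : (1 - ε') * (nn - (1 + ε) * u) = (1 - ε') * nn - (1 - ε') * ((1 + ε) * u) := by ring
      linarith
    have h9 : max 0 (nn - (1 + ε) * u) ≤ 2 * (D t + CE + ε' * Ea) := by
      have h10 : 0 ≤ D t + CE + ε' * Ea := by positivity
      apply max_le
      · linarith
      · by_cases hs : nn - (1 + ε) * u ≤ 0
        · linarith
        · push Not at hs
          nlinarith only [h8, hs, h10, hε'1]
    have h10 := mul_le_mul_of_nonneg_left h9 (hρ0 t)
    refine h10.trans (le_of_eq ?_)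
    ring
  -- integrate
  have hnai : IntervalIntegrable (fun t => rh τ H S r t * na F U1 U2 h t) volume (T + L) (2 * T - L) :=
    na_int hρc h _ _
  have hi0 : IntervalIntegrable (fun t => rh τ H S r t * max 0 (na F U1 U2 h t - (1 + ε) * (h * L / Real.pi)))
      volume (T + L) (2 * T - L) := by
    have h1 : IntervalIntegrable (fun t => rh τ H S r t * na F U1 U2 h t -
        rh τ H S r t * ((1 + ε) * (h * L / Real.pi))) volume (T + L) (2 * T - L) :=
      hnai.sub ((hρc.mul continuous_const).intervalIntegrable _ _)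
    have h2 : (fun t => rh τ H S r t * max 0 (na F U1 U2 h t - (1 + ε) * (h * L / Real.pi))) =
        fun t => max 0 (rh τ H S r t * na F U1 U2 h t - rh τ H S r t * ((1 + ε) * (h * L / Real.pi))) := by
      funext t
      rw [mul_max_of_nonneg _ _ (hρ0 t), mul_zero, mul_sub]
    rw [h2]
    constructor
    · have := h1.1
      exact (integrable_zero _ _ _).sup this
    · have := h1.2
      exact (integrable_zero _ _ _).sup this
  have hi1 : IntervalIntegrable (fun t => 2 * (rh τ H S r t * D t)) volume (T + L) (2 * T - L) :=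
    (continuous_const.mul (hρc.mul hDc)).intervalIntegrable _ _
  have hi2 : IntervalIntegrable (fun t => (2 * CE) * rh τ H S r t) volume (T + L) (2 * T - L) :=
    (continuous_const.mul hρc).intervalIntegrable _ _
  have hi3 : IntervalIntegrable (fun t => (2 * ε') * (rh τ H S r t * EA F U1 U2 θ L (X1 / L) h t)) volume
      (T + L) (2 * T - L) := (EA_int F U1 U2 hρc hX0 θ L h _ _).const_mul _
  have hint := intervalIntegral.integral_mono_on hab hi0 ((hi1.add hi2).add hi3) hpt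
  rw [intervalIntegral.integral_add (hi1.add hi2) hi3, intervalIntegral.integral_add hi1 hi2,
    intervalIntegral.integral_const_mul, intervalIntegral.integral_const_mul,
    intervalIntegral.integral_const_mul] at hint
  refine hint.trans ?_
  have k1 : 2 * CE * (∫ t in (T + L)..(2 * T - L), rh τ H S r t) ≤ ε / 4 * U := by
    have h1 : 16 * Real.pi * CE / ε ≤ h * L := by
      refine le_trans ?_ hhL
      rw [hH0]; linarith
    rw [div_le_iff₀ hε] at h1
    have h2 : 2 * CE * (∫ t in (T + L)..(2 * T - L), rh τ H S r t) ≤ 2 * CE * (2 * m) :=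
      mul_le_mul_of_nonneg_left hmass' (by positivity)
    refine h2.trans ?_
    rw [hUd]
    have h3 : ε / 4 * (m * (h * L / Real.pi)) = m * ((h * L * ε) / (4 * Real.pi)) := by
      field_simp
    rw [h3]
    have h4 : 4 * CE ≤ (h * L * ε) / (4 * Real.pi) := by
      rw [le_div_iff₀ (by positivity)]
      linarith
    calc 2 * CE * (2 * m) = m * (4 * CE) := by ring
      _ ≤ _ := mul_le_mul_of_nonneg_left h4 hm0
  have k2 : 2 * ε' * (∫ t in (T + L)..(2 * T - L), rh τ H S r t * EA F U1 U2 θ L (X1 / L) h t) ≤ ε / 4 * U := by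
    have h1 : 2 * ε' * (∫ t in (T + L)..(2 * T - L), rh τ H S r t * EA F U1 U2 θ L (X1 / L) h t) ≤
        2 * ε' * (Ce * (h * L + X1) * m) := mul_le_mul_of_nonneg_left hEA' (by positivity)
    refine h1.trans ?_
    have h2 : X1 ≤ h * L := by
      refine le_trans ?_ hhL
      rw [hH0]; linarith
    have h3 : 2 * ε' * (Ce * (h * L + X1) * m) ≤ 2 * ε' * (Ce * (h * L + h * L) * m) := by gcongr
    refine h3.trans ?_
    rw [hUd]
    have h4 : 2 * ε' * (Ce * (h * L + h * L) * m) = (2 * Real.pi * ε' * Ce) * (2 * (m * (h * L / Real.pi))) := by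
      field_simp
      ring
    rw [h4]
    have h5 : 0 ≤ m * (h * L / Real.pi) := by positivity
    calc (2 * Real.pi * ε' * Ce) * (2 * (m * (h * L / Real.pi))) ≤ (ε / 400) * (2 * (m * (h * L / Real.pi))) :=
          mul_le_mul_of_nonneg_right hε'3 (by positivity)
      _ ≤ _ := by
          have h6 : 0 ≤ ε * (m * (h * L / Real.pi)) := mul_nonneg hε.le h5
          linarith only [h6]
  have k3 : 0 ≤ ε * U := by positivity
  linarith

end Pool.Agent.Run7.h609.CW
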