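import Pool.Agent.Run7.h311.WI.Fin
import Pool.Agent.Run7.h609.CW.Comb

/-!
# Correlations of all orders in every weight: zeta (helper609)
-/

set_option linter.unusedVariables false
set_option maxHeartbeats 4000000

open Complex Filter Topology Set MeasureTheory
open scoped BigOperators ComplexConjugate

namespace Pool.Agent.Run7.h609.CW

open H370 hiding pt
open TC Pool.Agent.N802.U Pool.Agent.N802 Pool.Agent.N802.WD
open _root_.Run7.h311.WI (cI cI_nonneg cI_le coreI)

theorem zconc : S_conc riemannZeta :=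
  conc win2 sq pl gsq ch good_zeta (ef good_zeta) (ew good_zeta wd_zeta)

theorem shI {ε0 : ℝ} (h0 : 0 < ε0) (h1 : ε0 ≤ 1 / 10) : ∃ d0 : ℝ, 0 < d0 ∧
    S_sharpD riemannZeta (0.6725 - ε0) (cI riemannZeta d0) := by
  obtain ⟨d0, hd0, hd1, hc⟩ := coreI win2 sq pl gsq (ms2 ch gsq) (fm2 ch) good_zeta
    (ef good_zeta) (ew good_zeta wd_zeta) h0
  exact ⟨d0, hd0, sharpD good_zeta (by norm_num; linarith) (by norm_num; linarith) (cI_nonneg _ _)
      (cI_le good_zeta d0) hc⟩

theorem shM {F : ℂ → ℂ} {q : ℝ} {c : ℂ → ℝ} (h : S_sharpD F q c) : S_sharpD F 1 (fun s => (mult F s : ℝ)) := by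
  intro ε hε hε1
  obtain ⟨δ, H0, T0, h1, h2, h3, h4⟩ := h ε hε hε1
  refine ⟨δ, H0, T0, h1, h2, h3, fun T hT h hh1 hh2 K hK1 hK2 S hS r => ?_⟩
  obtain ⟨g1, g2, g3⟩ := h4 T hT h hh1 hh2 K hK1 hK2 S hS r
  exact ⟨g3, g2, g3⟩

/-- the share of the isolated simple zeros (`true`) and of all zeros (`false`) -/
noncomputable def share (b : Bool) : ℝ := if b then 0.6725 else 1

/-- the weight of a zero: `1` for an isolated simple zero and `0` for the others (`true`), or the multiplicity (`false`) -/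
noncomputable def kw (d : ℝ) (b : Bool) (s : ℂ) : ℝ := if b then cI riemannZeta d s else (mult riemannZeta s : ℝ)

theorem final (k : ℕ) (b : Fin (k + 1) → Bool) (ε : ℝ) (hε : 0 < ε) : ∃ d δ L0 T0 : ℝ, 0 < d ∧ 0 < δ ∧ 0 < L0 ∧
    10 ≤ T0 ∧ ∀ T : ℝ, T0 ≤ T → ∀ K : ℝ, T ^ (1 - δ) ≤ K → K ≤ T / 8 →
    ∀ S : Finset ℕ, Len S (T ^ δ) → ∀ r : ℕ → ℂ, ∀ A B : Fin k → ℝ, (∀ j, -(T / 4) ≤ A j) →
    (∀ j, B j ≤ T ^ (1 + δ)) → (∀ j, L0 / Real.log T ≤ B j - A j) → ∀ V : ℝ, 4 * T ^ (1 + δ) ≤ V →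
    (1 - ∑ j, (1 - share (b j)) - ε) * ((∏ j, ((B j - A j) * Real.log T / (2 * Real.pi))) *
      (K / (2 * Real.pi) * Real.log T * w1 S r)) ≤
    ∑ s ∈ Zf riemannZeta T (T + K), kw d (b 0) s * ‖RP S r s.im‖ ^ 2 *
      ∏ j : Fin k, Nw (Zf riemannZeta 1 V) (kw d (b j.succ)) (s.im + A j) (s.im + B j) := by
  obtain ⟨e, he0, he1, he2⟩ : ∃ e : ℝ, 0 < e ∧ e ≤ 1 / 10 ∧ (k + 2) * e ≤ ε := by
    have hk : (0 : ℝ) < (k : ℝ) + 2 := by positivity
    refine ⟨min (1 / 10) (ε / (k + 2)), lt_min (by norm_num) (by positivity), min_le_left _ _, ?_⟩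
    calc ((k : ℝ) + 2) * min (1 / 10) (ε / (k + 2)) ≤ (k + 2) * (ε / (k + 2)) :=
          mul_le_mul_of_nonneg_left (min_le_right _ _) hk.le
      _ = ε := by field_simp
  obtain ⟨d, hd0, hd⟩ := shI he0 he1
  have hm := shM hd
  set q : Fin (k + 1) → ℝ := fun j => if b j then 0.6725 - e else 1 with hq
  obtain ⟨δ, L0, T0, h1, h2, h3, h4⟩ := combo good_zeta zconc k q (fun j => kw d (b j))
    (fun j => by
      simp only [hq]
      split_ifs
      · norm_num
        linarith
      · norm_num)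
    (fun j => by
      simp only [hq]
      split_ifs
      · norm_num
        linarith
      · norm_num)
    (fun j s => by
      simp only [kw]
      split_ifs
      · exact cI_nonneg _ _ s
      · exact Nat.cast_nonneg _)
    (fun j s g1 g2 g3 g4 => by
      simp only [kw]
      split_ifs
      · exact cI_le good_zeta d s g1 g2 g3 g4
      · exact le_rfl)
    (fun j => by
      simp only [hq]
      unfold kw
      rcases hb : b j with _ | _
      · simpa using hm
      · simpa using hd)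
    e he0 (by linarith)
  refine ⟨d, δ, L0, T0, hd0, h1, h2, h3, fun T hT K hK1 hK2 S hS r A B hA hB hAB V hV => ?_⟩
  refine le_trans ?_ (h4 T hT K hK1 hK2 S hS r A B hA hB hAB V hV)
  have hT1 : 1 < T := by linarith
  have hL : 0 < Real.log T := Real.log_pos hT1
  have hK0 : 0 < K := lt_of_lt_of_le (by positivity) hK1
  have hw := w1_nonneg S r
  have hπ := Real.pi_pos
  apply mul_le_mul_of_nonneg_right
  · have g1 : ∑ j, (1 - q j) ≤ ∑ j, (1 - share (b j)) + (k + 1) * e := by
      have g2 : ∀ j, 1 - q j ≤ (1 - share (b j)) + e := by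
        intro j
        simp only [hq, share]
        split_ifs
        · linarith
        · linarith
      calc ∑ j, (1 - q j) ≤ ∑ j, ((1 - share (b j)) + e) := Finset.sum_le_sum fun j _ => g2 j
        _ = _ := by
            rw [Finset.sum_add_distrib]
            simp
    linarith
  · apply mul_nonneg
    · apply Finset.prod_nonneg
      intro j _
      have : 0 ≤ B j - A j := le_trans (by positivity) (hAB j)
      positivity
    · positivity

end Pool.Agent.Run7.h609.CW
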