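import Pool.Agent.N802.WD.Sharp6
import Pool.Agent.Run7.h609.CW.Conc

/-!
# Sharp cutoffs: mass, lower bound for the weighted counts, rarity of large counts (helper609)
-/

set_option linter.unusedVariables false
set_option maxHeartbeats 4000000

open Complex Filter Topology Set MeasureTheory
open scoped BigOperators ComplexConjugate

namespace Pool.Agent.Run7.h609.CW

open H370 hiding pt
open TC Pool.Agent.N802.U Pool.Agent.N802 Pool.Agent.N802.WD
open Pool.Agent.N845.U2 (cnt cnt_nonneg cnt_int ev pts_upper omI_near Om_cont omI_nonneg swap swap_int)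
open Pool.Agent.N802.U.Sharpaux

/-- from the mean over the centres to a sharp cutoff, upper bound -/
lemma upperG {g : ℝ → ℝ} {a b c d H D B : ℝ} (gi : ∀ x y, IntervalIntegrable g volume x y)
    (g0 : ∀ t, 0 ≤ g t) (hH : 0 < H)
    (hD : 0 ≤ D) (hab : a + D ≤ b - D) (hca : c ≤ a + D) (hbd : b - D ≤ d)
    (hB : ∀ τ ∈ Set.Icc a b, ∫ t in c..d, om τ H t * g t ≤ B) :
    Real.sqrt (2 * Real.pi) * H * (1 - 2 * Real.exp (-(D ^ 2) / (4 * H ^ 2))) *
      (∫ t in (a + D)..(b - D), g t) ≤ (b - a) * B := by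
  have hab' : a ≤ b := by linarith
  have hcd : c ≤ d := by linarith
  have h1 : ∫ τ in a..b, (∫ t in c..d, om τ H t * g t) ≤ (b - a) * B := by
    have : (b - a) * B = ∫ τ in a..b, B := by
      rw [intervalIntegral.integral_const, smul_eq_mul]
    rw [this]
    exact intervalIntegral.integral_mono_on hab' (swap_int hab' hcd (gi c d))
      (continuous_const.intervalIntegrable _ _) hB
  rw [swap hab' hcd (gi c d)] at h1
  set Ω : ℝ → ℝ := fun t => ∫ τ in a..b, om τ H t with hΩ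
  have Ωc : Continuous Ω := Om_cont a b H
  have Ωg : ∀ x y, IntervalIntegrable (fun t => Ω t * g t) volume x y := fun x y =>
    (gi x y).continuousOn_mul Ωc.continuousOn
  have Ω0 : ∀ t, 0 ≤ Ω t := fun t => omI_nonneg H t hab'
  have e1 := intervalIntegral.integral_add_adjacent_intervals (Ωg c (a + D)) (Ωg (a + D) (b - D))
  have e2 := intervalIntegral.integral_add_adjacent_intervals (Ωg c (b - D)) (Ωg (b - D) d)
  have f1 : 0 ≤ ∫ t in c..(a + D), Ω t * g t :=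
    intervalIntegral.integral_nonneg hca fun t _ => mul_nonneg (Ω0 t) (g0 t)
  have f2 : 0 ≤ ∫ t in (b - D)..d, Ω t * g t :=
    intervalIntegral.integral_nonneg hbd fun t _ => mul_nonneg (Ω0 t) (g0 t)
  have f3 : Real.sqrt (2 * Real.pi) * H * (1 - 2 * Real.exp (-(D ^ 2) / (4 * H ^ 2))) *
      (∫ t in (a + D)..(b - D), g t) ≤ ∫ t in (a + D)..(b - D), Ω t * g t := by
    rw [← intervalIntegral.integral_const_mul]
    apply intervalIntegral.integral_mono_on hab ((gi _ _).const_mul _) (Ωg _ _)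
    intro t ht
    exact mul_le_mul_of_nonneg_right (omI_near hH hD ht.1 ht.2) (g0 t)
  have h1' : ∫ t in c..d, Ω t * g t ≤ (b - a) * B := h1
  linarith

lemma RPc (S : Finset ℕ) (r : ℕ → ℂ) : Continuous (fun t => ‖RP S r t‖ ^ 2) := by
  have : Continuous (RP S r) := Pool.Agent.N802.TP_cont _ _ _ _
  exact this.norm.pow 2

/-- **the mass** -/
theorem B3 (ε : ℝ) (hε : 0 < ε) (hε1 : ε < 1) : ∃ T0 : ℝ, 10 ≤ T0 ∧ ∀ T : ℝ, T0 ≤ T → ∀ K : ℝ, T ^ (7 / 8 : ℝ) ≤ K →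
    ∀ S : Finset ℕ, Len S (T ^ (1 / 4 : ℝ)) → ∀ r : ℕ → ℂ,
    ∫ t in T..(T + K), ‖RP S r t‖ ^ 2 ≤ (1 + ε) * (K * w1 S r) := by
  obtain ⟨κ, hκ⟩ : ∃ κ : ℝ, κ = ε / 100 := ⟨_, rfl⟩
  have hκ0 : 0 < κ := by rw [hκ]; positivity
  have hκ1 : κ ≤ 1 / 100 := by rw [hκ]; linarith
  have hev : ∀ᶠ T : ℝ in atTop, Real.log T ≤ κ * T ^ (1 / 8 : ℝ) ∧ 2 * Real.exp (-(Real.log T) ^ 2 / 4) ≤ κ ∧
      1 / κ ≤ T ∧ 1 ≤ Real.log T := by
    have h1 : ∀ᶠ T : ℝ in atTop, ‖Real.log T‖ ≤ κ * ‖T ^ (1 / 8 : ℝ)‖ :=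
      (isLittleO_log_rpow_atTop (by norm_num : (0 : ℝ) < 1 / 8)).def hκ0
    have h2 : ∀ᶠ T : ℝ in atTop, 2 * Real.exp (-(Real.log T) ^ 2 / 4) ≤ κ := by
      have hl : ∀ᶠ T : ℝ in atTop, max 1 (8 / κ) ≤ Real.log T := Real.tendsto_log_atTop.eventually_ge_atTop _
      filter_upwards [hl] with T hT
      have a1 : 1 ≤ Real.log T := (le_max_left _ _).trans hT
      have a2 : 8 / κ ≤ Real.log T := (le_max_right _ _).trans hT
      have a3 : Real.log T / 4 ≤ Real.exp ((Real.log T) ^ 2 / 4) := by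
        have := Real.add_one_le_exp ((Real.log T) ^ 2 / 4)
        nlinarith
      rw [neg_div, Real.exp_neg, ← div_eq_mul_inv, div_le_iff₀ (Real.exp_pos _)]
      rw [div_le_iff₀ hκ0] at a2
      nlinarith [Real.exp_pos ((Real.log T) ^ 2 / 4)]
    filter_upwards [h1, h2, eventually_ge_atTop (1 / κ), Real.tendsto_log_atTop.eventually_ge_atTop 1,
      eventually_ge_atTop (1 : ℝ)] with T g1 g2 g3 g4 g5
    rw [Real.norm_of_nonneg (by linarith), Real.norm_of_nonneg (by positivity)] at g1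
    exact ⟨g1, g2, g3, g4⟩
  obtain ⟨T0, hT0⟩ := eventually_atTop.1 hev
  refine ⟨max T0 20000, le_trans (by norm_num) (le_max_right _ _), fun T hT K hK S hS r => ?_⟩
  obtain ⟨g1, g2, g3, g4⟩ := hT0 T ((le_max_left _ _).trans hT)
  have hT2 : (20000 : ℝ) ≤ T := (le_max_right _ _).trans hT
  have hT0' : 0 < T := by linarith
  set L := Real.log T with hL
  have hL0 : 0 < L := by linarith
  have hK0 : 0 < K := lt_of_lt_of_le (by positivity) hK
  obtain ⟨D, hD⟩ : ∃ D : ℝ, D = κ * K := ⟨_, rfl⟩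
  have hD0 : 0 < D := by rw [hD]; positivity
  obtain ⟨H, hH⟩ : ∃ H : ℝ, H = D / L := ⟨_, rfl⟩
  have hH0 : 0 < H := by rw [hH]; positivity
  have hHT : T ^ (1 - 1 / 4 : ℝ) ≤ H := by
    rw [hH, le_div_iff₀ hL0, hD]
    calc T ^ (1 - 1 / 4 : ℝ) * L ≤ T ^ (1 - 1 / 4 : ℝ) * (κ * T ^ (1 / 8 : ℝ)) := by gcongr
      _ = κ * (T ^ (1 - 1 / 4 : ℝ) * T ^ (1 / 8 : ℝ)) := by ring
      _ = κ * T ^ (7 / 8 : ℝ) := by
          rw [← Real.rpow_add hT0']
          norm_num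
      _ ≤ κ * K := mul_le_mul_of_nonneg_left hK hκ0.le
  obtain ⟨hK1, -, -, -, -, hE⟩ := Fm2aux.nums hT2 hHT
  set e0 := T ^ (1 / 4 : ℝ) * Real.exp (-(H ^ 2) / (8 * (T ^ (1 / 4 : ℝ)) ^ 2)) with he0
  have he00 : 0 ≤ e0 := by positivity
  have he1 : e0 ≤ κ := by
    rw [div_le_iff₀ hκ0] at g3
    have h1 : 6 * T * e0 ≤ T * κ := hE.trans g3
    have h2 : T * (6 * e0) ≤ T * κ := by linarith
    have h3 := le_of_mul_le_mul_left h2 hT0'
    linarith
  have hw := Pool.Agent.N802.w1_nonneg S r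
  have hB : ∀ τ : ℝ, ∀ c d : ℝ, c ≤ d → ∫ t in c..d, om τ H t * ‖RP S r t‖ ^ 2 ≤
      Real.sqrt (2 * Real.pi) * H * w1 S r * (1 + κ) := by
    intro τ c d hcd
    have h1 := FMaux.int0 (Fm2aux.len_smo hS) hK1 hH0 τ r
    have h2 := (abs_le.1 h1).2
    have h3 : ∫ t in c..d, om τ H t * ‖RP S r t‖ ^ 2 ≤ ∫ t, om τ H t * ‖RP S r t‖ ^ 2 := by
      rw [intervalIntegral.integral_of_le hcd]
      exact setIntegral_le_integral (Msaux.om_R_int hH0 S r)
        (Eventually.of_forall fun t => mul_nonneg (om_pos _ _ _).le (sq_nonneg _))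
    have h4 : Real.sqrt (2 * Real.pi) * H * w1 S r * e0 ≤ Real.sqrt (2 * Real.pi) * H * w1 S r * κ :=
      mul_le_mul_of_nonneg_left he1 (by positivity)
    linarith
  have hup := upperG (g := fun t => ‖RP S r t‖ ^ 2) (a := T - D) (b := T + K + D) (c := T) (d := T + K)
    (H := H) (D := D) (B := Real.sqrt (2 * Real.pi) * H * w1 S r * (1 + κ))
    (fun x y => (RPc S r).intervalIntegrable _ _) (fun t => sq_nonneg _) hH0 hD0.le (by linarith) (by linarith)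
    (by linarith) (fun τ _ => hB τ _ _ (by linarith))
  have e0' : -(D ^ 2) / (4 * H ^ 2) = -L ^ 2 / 4 := by
    rw [hH]
    field_simp
  rw [e0'] at hup
  have e1 : T - D + D = T := by ring
  have e2 : T + K + D - D = T + K := by ring
  rw [e1, e2] at hup
  set I := ∫ t in T..(T + K), ‖RP S r t‖ ^ 2 with hI
  have hI0 : 0 ≤ I := intervalIntegral.integral_nonneg (by linarith) fun t _ => sq_nonneg _
  set P := Real.sqrt (2 * Real.pi) * H with hP
  have hP0 : 0 < P := by positivity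
  have h5 : P * ((1 - κ) * I) ≤ P * ((1 + 2 * κ) * (1 + κ) * (K * w1 S r)) := by
    calc P * ((1 - κ) * I) ≤ P * ((1 - 2 * Real.exp (-L ^ 2 / 4)) * I) := by
          apply mul_le_mul_of_nonneg_left _ hP0.le
          apply mul_le_mul_of_nonneg_right _ hI0
          linarith
      _ = P * (1 - 2 * Real.exp (-L ^ 2 / 4)) * I := by ring
      _ ≤ (T + K + D - (T - D)) * (P * w1 S r * (1 + κ)) := hup
      _ = _ := by rw [hD]; ring
  have h6 := le_of_mul_le_mul_left h5 hP0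
  have hKw : 0 ≤ K * w1 S r := by positivity
  have h7 : (1 + 2 * κ) * (1 + κ) * (K * w1 S r) ≤ (1 - κ) * ((1 + ε) * (K * w1 S r)) := by
    have : (1 + 2 * κ) * (1 + κ) ≤ (1 - κ) * (1 + ε) := by
      rw [hκ]
      nlinarith
    calc _ ≤ ((1 - κ) * (1 + ε)) * (K * w1 S r) := mul_le_mul_of_nonneg_right this hKw
      _ = _ := by ring
  exact le_of_mul_le_mul_left (h6.trans h7) (by linarith)

/-- **the lower bound for the weighted counts** -/
theorem B1 {F : ℂ → ℂ} (hF : GoodL F) {q : ℝ} {c : ℂ → ℝ} (hc0 : ∀ s, 0 ≤ c s) (hsh : S_sharpD F q c) :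
    ∀ ε : ℝ, 0 < ε → ε < 1 → ∃ δ H0 T0 : ℝ, 0 < δ ∧ 0 < H0 ∧ 10 ≤ T0 ∧ ∀ T : ℝ, T0 ≤ T →
    ∀ h : ℝ, H0 / Real.log T ≤ h → h ≤ δ → ∀ K : ℝ, T ^ (1 - δ) ≤ K → K ≤ T / 2 →
    ∀ S : Finset ℕ, Len S (T ^ δ) → ∀ r : ℕ → ℂ, ∀ V : ℝ, T + K ≤ V →
    (q - ε) * (K * w1 S r * (h * Real.log T / Real.pi)) ≤
      ∫ t in (T - h)..(T + K + h), ‖RP S r t‖ ^ 2 * cnt (Zf F 1 V) c h t := by
  intro ε hε hε1
  obtain ⟨δ, H0, T0, hδ, hH0, hT0, HS⟩ := hsh ε hε hε1
  refine ⟨δ, H0, T0, hδ, hH0, hT0, fun T hT h hh1 hh2 K hK1 hK2 S hS r V hV => ?_⟩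
  have h1 := (HS T hT h hh1 hh2 K hK1 hK2 S hS r).1
  have hT1 : 1 < T := by linarith
  have hL : 0 < Real.log T := Real.log_pos hT1
  have hh0 : 0 < h := lt_of_lt_of_le (by positivity) hh1
  have hK0 : 0 < K := lt_of_lt_of_le (by positivity) hK1
  have hpts := pts_upper (f := fun t => ‖RP S r t‖ ^ 2) (RPc S r) (fun t => sq_nonneg _) (Z := Zf F 1 V)
    (Z' := Zf F T (T + K)) (m := c) hc0 (h := h) (h2 := h) (a := T - h) (b := T + K + h)
    (by linarith) le_rfl hh0.le (fun s hs => by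
      have hsz := (mem_Zf hF (by linarith : 1 ≤ T)).1 hs
      exact (mem_Zf hF (le_refl (1 : ℝ))).2 ⟨hsz.1, hsz.2.1, by linarith [hsz.2.2.1], by linarith [hsz.2.2.2.1],
        hsz.2.2.2.2⟩) (fun s hs => by
      have hsz := (mem_Zf hF (by linarith : 1 ≤ T)).1 hs
      exact ⟨by linarith [hsz.2.2.1], by linarith [hsz.2.2.2.1]⟩)
  rw [← Mh_sum S r hh0 (Zf F T (T + K)) c] at hpts
  refine le_trans ?_ hpts
  have h2 := mul_le_mul_of_nonneg_left h1 (show 0 ≤ 2 * h by positivity)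
  refine le_trans (le_of_eq ?_) h2
  field_simp

/-- **large counts are rare** -/
theorem B2 {F : ℂ → ℂ} (hF : GoodL F) (hconc : S_conc F) :
    ∀ ε : ℝ, 0 < ε → ε < 1 → ∃ δ H0 T0 : ℝ, 0 < δ ∧ 0 < H0 ∧ 10 ≤ T0 ∧ ∀ T : ℝ, T0 ≤ T →
    ∀ h : ℝ, H0 / Real.log T ≤ h → h ≤ δ → ∀ K : ℝ, T ^ (1 - δ) ≤ K → K ≤ T / 2 →
    ∀ S : Finset ℕ, Len S (T ^ δ) → ∀ r : ℕ → ℂ, ∀ V : ℝ, T + K + 1 ≤ V →
    ∫ t in T..(T + K), ‖RP S r t‖ ^ 2 *
      max 0 (cnt (Zf F 1 V) (fun s => (mult F s : ℝ)) h t - (1 + ε) * (h * Real.log T / Real.pi)) ≤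
    ε * (K * w1 S r * (h * Real.log T / Real.pi)) := by
  classical
  intro ε hε hε1
  obtain ⟨κ, hκ⟩ : ∃ κ : ℝ, κ = ε / 100 := ⟨_, rfl⟩
  have hκ0 : 0 < κ := by rw [hκ]; positivity
  have hκ1 : κ ≤ 1 / 100 := by rw [hκ]; linarith
  have hεκ : ε = 100 * κ := by rw [hκ]; ring
  obtain ⟨δ1, Hc, T1, hδ1, hHc, hT1, core⟩ := hconc κ hκ0 (by linarith)
  obtain ⟨δm, hδm⟩ : ∃ δm : ℝ, δm = min δ1 (1 / 2) := ⟨_, rfl⟩
  have hδm0 : 0 < δm := by rw [hδm]; positivity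
  have hδm1 : δm ≤ δ1 := by rw [hδm]; exact min_le_left _ _
  have hδm3 : δm ≤ 1 / 2 := by rw [hδm]; exact min_le_right _ _
  obtain ⟨δ, hδ⟩ : ∃ δ : ℝ, δ = δm / 4 := ⟨_, rfl⟩
  have hδ0 : 0 < δ := by rw [hδ]; positivity
  have hδb : 4 * δ ≤ δ1 := by rw [hδ]; linarith
  have hδd : δ ≤ 1 / 8 := by rw [hδ]; linarith
  have hev := (ev (δ := δm) (κ := κ) (c := 1) (C := 1) (T1 := T1) hδm0 hδm3 hκ0 one_pos one_pos)
  obtain ⟨T0, hT0⟩ := eventually_atTop.1 hev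
  refine ⟨δ, 2 * Hc + 1, max T0 30, hδ0, by positivity, le_trans (by norm_num) (le_max_right _ _), ?_⟩
  intro T hT h hha hhb K hK1 hK2 S hS r V hV
  have hT30 : 30 ≤ T := (le_max_right _ _).trans hT
  obtain ⟨⟨g1, g2⟩, ⟨g3, g3'⟩, ⟨g4, g5, g5'⟩, g6, g7, g8, g9, g10, g11⟩ :=
    hT0 T ((le_max_left _ _).trans hT)
  obtain ⟨T', hT'⟩ : ∃ T' : ℝ, T' = 9 / 10 * T := ⟨_, rfl⟩
  rw [← hT'] at g2 g3 g3' g4 g5 g5' g6 g7 g8 g9 g10
  have hT'9 : 9 ≤ T' := by rw [hT']; linarith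
  obtain ⟨U1, U2, u1, u2, u3, u4, core⟩ := core T' g2
  obtain ⟨L, hL⟩ : ∃ L : ℝ, L = Real.log T := ⟨_, rfl⟩
  obtain ⟨L', hL'⟩ : ∃ L' : ℝ, L' = Real.log T' := ⟨_, rfl⟩
  rw [← hL'] at g3 g3' g4 g5 g5' g7 g8 g9 g10 core
  rw [← hL] at g3 g3' g5 g5' hha ⊢
  have hT0' : 0 < T := by linarith
  have hT'0 : 0 < T' := by linarith
  have hL'p : 0 < L' := by
    rw [hL']
    exact Real.log_pos (by linarith)
  have hLp : 0 < L := by linarith
  have hL2 : L ≤ 2 * L' := by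
    have : κ * L ≤ 1 / 100 * L := mul_le_mul_of_nonneg_right hκ1 hLp.le
    linarith only [g3, this, hLp]
  -- the window
  have hh0 : 0 < h := lt_of_lt_of_le (by positivity) hha
  have hhL : 2 * Hc + 1 ≤ h * L := by
    rw [div_le_iff₀ hLp] at hha
    exact hha
  have hhc : h ≤ 1 := by linarith
  have hha' : Hc / L' ≤ h := by
    rw [div_le_iff₀ hL'p]
    have : h * L ≤ h * (2 * L') := mul_le_mul_of_nonneg_left hL2 hh0.le
    linarith
  have hhb' : h ≤ δ1 := by linarith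
  have hTKm : T ^ (1 - δm / 4) ≤ K := by
    rw [← hδ]
    exact hK1
  have hTK : T ^ (1 - (1 / 2 : ℝ) / 4) ≤ K := by
    refine le_trans ?_ hK1
    exact Real.rpow_le_rpow_of_exponent_le (by linarith) (by linarith)
  have hK0 : 0 < K := lt_of_lt_of_le (by positivity) hTK
  -- the width
  obtain ⟨D, hD⟩ : ∃ D : ℝ, D = κ * K := ⟨_, rfl⟩
  have hD0 : 0 < D := by rw [hD]; positivity
  obtain ⟨H, hH⟩ : ∃ H : ℝ, H = D / L' := ⟨_, rfl⟩
  have hH0 : 0 < H := by rw [hH]; positivity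
  have hLH : L' * H = D := by rw [hH]; field_simp
  have hHm : T' ^ (1 - δm) ≤ H := by
    rw [hH, le_div_iff₀ hL'p]
    refine g7.trans ?_
    rw [hD]
    exact mul_le_mul_of_nonneg_left hTKm hκ0.le
  have hHa : T' ^ (1 - δ1) ≤ H :=
    le_trans (Real.rpow_le_rpow_of_exponent_le (by linarith) (by linarith)) hHm
  have hDT : D ≤ T / 200 := by
    rw [hD]
    calc κ * K ≤ 1 / 100 * (T / 2) := mul_le_mul hκ1 hK2 hK0.le (by norm_num)
      _ = T / 200 := by ring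
  -- lengths
  have hSa : Len S (T' ^ δ1) := fun k hk => by
    obtain ⟨h1, h2⟩ := hS k hk
    refine ⟨h1, h2.trans ?_⟩
    calc T ^ δ = T ^ (δm / 4) := by rw [hδ]
      _ ≤ T' ^ δm := g6
      _ ≤ T' ^ δ1 := Real.rpow_le_rpow_of_exponent_le (by linarith) hδm1
  have hw0 : 0 ≤ w1 S r := Pool.Agent.N802.w1_nonneg S r
  have hf0 : ∀ t, 0 ≤ ‖RP S r t‖ ^ 2 := fun t => by positivity
  obtain ⟨P, hP⟩ : ∃ P : ℝ, P = Real.sqrt (2 * Real.pi) * H := ⟨_, rfl⟩
  have hP0 : 0 < P := by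
    rw [hP]
    positivity
  have hmr : mr H S r = P * w1 S r := by
    unfold mr
    rw [hP]
  set g : ℝ → ℝ := fun t => ‖RP S r t‖ ^ 2 * max 0 (na F U1 U2 h t - (1 + κ) * (h * L' / Real.pi)) with hg
  have g0 : ∀ t, 0 ≤ g t := fun t => mul_nonneg (hf0 t) (le_max_left _ _)
  have gint : ∀ (Z : Finset ℂ) (y : ℝ) (x x' : ℝ), IntervalIntegrable
      (fun t => ‖RP S r t‖ ^ 2 * max 0 (cnt Z (fun s => (mult F s : ℝ)) h t - y)) volume x x' := by
    intro Z y x x'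
    have h1 : IntervalIntegrable (fun t => ‖RP S r t‖ ^ 2 * cnt Z (fun s => (mult F s : ℝ)) h t -
        ‖RP S r t‖ ^ 2 * y) volume x x' :=
      (cnt_int (RPc S r) Z _ h x x').sub (((RPc S r).mul continuous_const).intervalIntegrable _ _)
    have h2 : (fun t => ‖RP S r t‖ ^ 2 * max 0 (cnt Z (fun s => (mult F s : ℝ)) h t - y)) =
        fun t => max 0 (‖RP S r t‖ ^ 2 * cnt Z (fun s => (mult F s : ℝ)) h t - ‖RP S r t‖ ^ 2 * y) := by
      funext t
      rw [mul_max_of_nonneg _ _ (hf0 t), mul_zero, mul_sub]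
    rw [h2]
    exact ⟨(integrable_zero _ _ _).sup h1.1, (integrable_zero _ _ _).sup h1.2⟩
  have gi : ∀ x y, IntervalIntegrable g volume x y := by
    intro x y
    simp only [hg, na_cnt]
    exact gint _ _ x y
  have hup := upperG (g := g) (a := T - D) (b := T + K + D) (c := T' + L')
    (d := 2 * T' - L') (H := H) (D := D) (B := κ * (P * w1 S r * (h * L' / Real.pi))) gi g0 hH0 hD0.le
    (by linarith only [hD0, hK0]) (by rw [hT']; linarith only [hDT, g8, hT0'])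
    (by rw [hT']; linarith only [hDT, g8, hT0', hK2])
    (fun τ hτ => by
      have h3 := core h hha' hhb' S hSa r τ H hHa
      rw [hmr] at h3
      refine le_trans (le_of_eq ?_) h3
      refine intervalIntegral.integral_congr fun t _ => ?_
      simp only [hg]
      unfold rh
      ring)
  have e0 : -(D ^ 2) / (4 * H ^ 2) = -L' ^ 2 / 4 := by
    rw [← hLH]
    field_simp
  rw [e0, ← hP] at hup
  have e : T + K + D - (T - D) = K * (1 + 2 * κ) := by rw [hD]; ring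
  have e1 : T - D + D = T := by ring
  have e2 : T + K + D - D = T + K := by ring
  rw [e, e1, e2] at hup
  set I := ∫ t in T..(T + K), g t with hI
  have hI0 : 0 ≤ I := intervalIntegral.integral_nonneg (by linarith) fun t _ => g0 t
  have hu0 : 0 ≤ h * L' / Real.pi := by positivity
  have h5 : P * ((1 - κ) * I) ≤ P * ((1 + 2 * κ) * κ * (K * w1 S r * (h * L' / Real.pi))) := by
    calc P * ((1 - κ) * I) ≤ P * ((1 - 2 * Real.exp (-L' ^ 2 / 4)) * I) := by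
          apply mul_le_mul_of_nonneg_left _ hP0.le
          apply mul_le_mul_of_nonneg_right _ hI0
          linarith
      _ = P * (1 - 2 * Real.exp (-L' ^ 2 / 4)) * I := by ring
      _ ≤ K * (1 + 2 * κ) * (κ * (P * w1 S r * (h * L' / Real.pi))) := hup
      _ = _ := by ring
  have h6 := le_of_mul_le_mul_left h5 hP0
  have huL : h * L' / Real.pi ≤ h * L / Real.pi := by
    have := Real.pi_pos
    gcongr
  have h7 : (1 + 2 * κ) * κ * (K * w1 S r * (h * L' / Real.pi)) ≤ (1 - κ) * (ε * (K * w1 S r * (h * L / Real.pi))) := by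
    have h8 : (1 + 2 * κ) * κ ≤ (1 - κ) * ε := by
      rw [hεκ]
      nlinarith
    have h80 : 0 ≤ (1 - κ) * ε := mul_nonneg (by linarith) hε.le
    calc (1 + 2 * κ) * κ * (K * w1 S r * (h * L' / Real.pi)) ≤ ((1 - κ) * ε) * (K * w1 S r * (h * L / Real.pi)) := by
          gcongr
      _ = _ := by ring
  have h8 : I ≤ ε * (K * w1 S r * (h * L / Real.pi)) := le_of_mul_le_mul_left (h6.trans h7) (by linarith)
  refine le_trans ?_ h8
  apply intervalIntegral.integral_mono_on (by linarith) (gint _ _ _ _) (gi _ _)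
  intro t ht
  simp only [hg]
  apply mul_le_mul_of_nonneg_left _ (hf0 t)
  apply max_le_max le_rfl
  have h9 : cnt (Zf F 1 V) (fun s => (mult F s : ℝ)) h t ≤ na F U1 U2 h t := by
    rw [na_cnt]
    unfold cnt
    have e3 : ∀ Z : Finset ℂ, ∑ s ∈ Z, (mult F s : ℝ) * (if |s.im - t| ≤ h then (1 : ℝ) else 0) =
        ∑ s ∈ Z.filter (fun s => |s.im - t| ≤ h), (mult F s : ℝ) := by
      intro Z
      rw [Finset.sum_filter]
      refine Finset.sum_congr rfl fun s _ => ?_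
      split_ifs <;> simp
    rw [e3, e3]
    apply Finset.sum_le_sum_of_subset_of_nonneg
    · intro s hs
      rw [Finset.mem_filter] at hs ⊢
      have hsz := (mem_Zf hF (le_refl (1 : ℝ))).1 hs.1
      have h10 := abs_le.1 hs.2
      refine ⟨(mem_Zf hF (by linarith only [u1, hT'9] : 1 ≤ U1)).2 ⟨hsz.1, hsz.2.1, ?_, ?_, hsz.2.2.2.2⟩, hs.2⟩
      · rw [hT'] at u2
        linarith only [u2, hT30, h10.1, ht.1, hhc]
      · rw [hT'] at u3
        linarith only [u3, g1, hK2, h10.2, ht.2, hhc]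
    · intro s _ _
      exact Nat.cast_nonneg _
  have h10 : (1 + κ) * (h * L' / Real.pi) ≤ (1 + ε) * (h * L / Real.pi) := by
    have : κ ≤ ε := by rw [hεκ]; linarith
    gcongr
  linarith

end Pool.Agent.Run7.h609.CW
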