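import Pool.Agent.Run7.h609.CW.Sharp

/-!
# Truncated counts around shifted points, in every weight `|R|²` (helper609)
-/

set_option linter.unusedVariables false
set_option maxHeartbeats 4000000

open Complex Filter Topology Set MeasureTheory
open scoped BigOperators ComplexConjugate

namespace Pool.Agent.Run7.h609.CW

open H370 hiding pt
open TC Pool.Agent.N802.U Pool.Agent.N802 Pool.Agent.N802.WD
open Pool.Agent.N845.U2 (cnt cnt_nonneg cnt_int)

/-- the coefficients of the shifted polynomial -/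
noncomputable def sr (r : ℕ → ℂ) (u : ℝ) (n : ℕ) : ℂ := r n * cexp (((u * Real.log n : ℝ) : ℂ) * I)

lemma RP_sr (S : Finset ℕ) (r : ℕ → ℂ) (u t : ℝ) : RP S (sr r u) t = RP S r (t - u) := by
  unfold RP TP sr mn
  refine Finset.sum_congr rfl fun n _ => ?_
  rw [mul_assoc, ← Complex.exp_add]
  congr 2
  simp only [Nat.cast_one, Real.log_one, zero_sub]
  push_cast
  ring

lemma w1_sr (S : Finset ℕ) (r : ℕ → ℂ) (u : ℝ) : w1 S (sr r u) = w1 S r := by
  unfold w1 sr
  refine Finset.sum_congr rfl fun n _ => ?_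
  rw [norm_mul, Complex.norm_exp_ofReal_mul_I, mul_one]

lemma cnt_meas (Z : Finset ℂ) (m : ℂ → ℝ) (h : ℝ) : Measurable (fun t => cnt Z m h t) := by
  unfold cnt
  apply Finset.measurable_sum
  intro s _
  apply measurable_const.mul
  apply Measurable.ite _ measurable_const measurable_const
  have : Continuous (fun t : ℝ => |s.im - t|) := by fun_prop
  exact (isClosed_le this continuous_const).measurableSet

/-- a continuous function times a bounded measurable function -/
lemma wint {f g : ℝ → ℝ} (hf : Continuous f) (hg : Measurable g) (hb : ∀ t, |g t| ≤ 1) (a b : ℝ) :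
    IntervalIntegrable (fun t => f t * g t) volume a b := by
  have h1 : IntervalIntegrable (fun t => |f t|) volume a b := hf.abs.intervalIntegrable _ _
  apply h1.mono_fun'
  · exact (hf.measurable.mul hg).aestronglyMeasurable.restrict
  · refine Eventually.of_forall fun t => ?_
    simp only
    rw [Real.norm_eq_abs, abs_mul]
    calc |f t| * |g t| ≤ |f t| * 1 := mul_le_mul_of_nonneg_left (hb t) (abs_nonneg _)
      _ = |f t| := mul_one _

/-- numerical facts about the logarithms -/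
lemma logs {T L e δ X : ℝ} (hT : 10 ≤ T) (hL : L = Real.log T) (heL : 1 ≤ e * L) (he : 0 < e) (hδe : δ ≤ e)
    (hX1 : T / 2 ≤ X) (hX2 : X ≤ 3 * T ^ (1 + δ)) (heL2 : 2 ≤ e * L) :
    (1 - e) * L ≤ Real.log X ∧ Real.log X ≤ (1 + 2 * e) * L := by
  have hT0 : 0 < T := by linarith
  have hL0 : 0 < L := by
    rw [hL]
    exact Real.log_pos (by linarith)
  have hX0 : 0 < X := by linarith
  constructor
  · have h1 : Real.log (T / 2) ≤ Real.log X := Real.log_le_log (by linarith) hX1
    rw [Real.log_div hT0.ne' (by norm_num), ← hL] at h1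
    have := Real.log_two_lt_d9
    linarith
  · have h1 : Real.log X ≤ Real.log (3 * T ^ (1 + δ)) := Real.log_le_log hX0 hX2
    rw [Real.log_mul (by norm_num) (by positivity), Real.log_rpow hT0, ← hL] at h1
    have h3 : Real.log 3 ≤ 2 := by
      rw [Real.log_le_iff_le_exp (by norm_num)]
      have := Real.add_one_le_exp (2 : ℝ)
      linarith
    have h4 : δ * L ≤ e * L := mul_le_mul_of_nonneg_right hδe hL0.le
    linarith

/-- numerical facts about the powers -/
lemma pows {T δ δa X : ℝ} (hT : 10 ≤ T) (hδ0 : 0 < δ) (hδ : δ ≤ δa / 8) (hδa : δa ≤ 1) (h6 : 6 ≤ T ^ (δa / 2))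
    (hX1 : T / 2 ≤ X) (hX2 : X ≤ 3 * T ^ (1 + δ)) :
    2 * X ^ (1 - δa) ≤ T ^ (1 - δ) ∧ T ^ δ ≤ X ^ δa := by
  have hT0 : 0 < T := by linarith
  have hT1 : 1 ≤ T := by linarith
  have hX0 : 0 < X := by linarith
  have hδa0 : 0 < δa := by linarith
  constructor
  · calc 2 * X ^ (1 - δa) ≤ 2 * (3 * T ^ (1 + δ)) ^ (1 - δa) := by
          have := Real.rpow_le_rpow hX0.le hX2 (show 0 ≤ 1 - δa by linarith)
          linarith
      _ = 2 * (3 ^ (1 - δa) * T ^ ((1 + δ) * (1 - δa))) := by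
          rw [Real.mul_rpow (by norm_num) (by positivity), ← Real.rpow_mul hT0.le]
      _ ≤ 2 * (3 * T ^ (1 - δ - δa / 2)) := by
          have h1 : (3 : ℝ) ^ (1 - δa) ≤ 3 := by
            calc (3 : ℝ) ^ (1 - δa) ≤ 3 ^ (1 : ℝ) := Real.rpow_le_rpow_of_exponent_le (by norm_num) (by linarith)
              _ = 3 := Real.rpow_one 3
          have h2 : T ^ ((1 + δ) * (1 - δa)) ≤ T ^ (1 - δ - δa / 2) := by
            apply Real.rpow_le_rpow_of_exponent_le hT1
            nlinarith
          have h3 : 0 ≤ T ^ ((1 + δ) * (1 - δa)) := by positivity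
          have h4 := mul_le_mul h1 h2 h3 (by norm_num)
          linarith
      _ = 6 * T ^ (1 - δ - δa / 2) := by ring
      _ ≤ T ^ (δa / 2) * T ^ (1 - δ - δa / 2) := mul_le_mul_of_nonneg_right h6 (by positivity)
      _ = T ^ (1 - δ) := by
          rw [← Real.rpow_add hT0]
          congr 1
          ring
  · calc T ^ δ ≤ T ^ (δa / 2) := Real.rpow_le_rpow_of_exponent_le hT1 (by linarith)
      _ ≤ T ^ (δa / 2) * (T ^ (δa / 2) / 6) := by
          apply le_mul_of_one_le_right (by positivity)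
          linarith
      _ = T ^ δa / 6 := by
          rw [mul_div_assoc', ← Real.rpow_add hT0]
          congr 2
          ring
      _ ≤ T ^ δa / 2 ^ δa := by
          apply div_le_div_of_nonneg_left (by positivity) (by positivity)
          calc (2 : ℝ) ^ δa ≤ 2 ^ (1 : ℝ) := Real.rpow_le_rpow_of_exponent_le (by norm_num) hδa
            _ ≤ 6 := by norm_num
      _ = (T / 2) ^ δa := by rw [Real.div_rpow hT0.le (by norm_num)]
      _ ≤ X ^ δa := Real.rpow_le_rpow (by linarith) hX1 hδa0.le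

/-- **truncated counts at shifted points** -/
theorem shiftB {F : ℂ → ℂ} (hF : GoodL F) {q : ℝ} {c : ℂ → ℝ} (hq : 1 / 2 ≤ q) (hq1 : q ≤ 1)
    (hc0 : ∀ s, 0 ≤ c s) (hcm : ∀ s, 0 < s.re → s.re < 1 → 1 < s.im → F s = 0 → c s ≤ mult F s)
    (hsh : S_sharpD F q c) (hconc : S_conc F) (e : ℝ) (he : 0 < e) (he1 : e ≤ 1 / 100) :
    ∃ δ H1 : ℝ, 0 < δ ∧ δ ≤ 1 / 8 ∧ 0 < H1 ∧ ∀ H2 : ℝ, H1 ≤ H2 → ∃ T0 : ℝ, 10 ≤ T0 ∧ ∀ T : ℝ, T0 ≤ T →
    ∀ h G : ℝ, h = H2 / Real.log T → G = (1 + 4 * e) * (h * Real.log T / Real.pi) →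
    ∀ K : ℝ, T ^ (1 - δ) ≤ K → K ≤ T / 8 → ∀ S : Finset ℕ, Len S (T ^ δ) → ∀ r : ℕ → ℂ,
    ∀ u : ℝ, -(T / 4) ≤ u → u ≤ T ^ (1 + δ) → ∀ V : ℝ, T + K + u + 2 ≤ V →
    (q - 9 * e) * (K * w1 S r) ≤ ∫ t in (T + 2 * h)..(T + K - 2 * h),
      ‖RP S r t‖ ^ 2 * (min (cnt (Zf F 1 V) c h (t + u)) G / G) := by
  classical
  obtain ⟨δa, Ha, Ta, hδa, hHa, hTa, HA⟩ := B1 hF hc0 hsh e he (by linarith)
  obtain ⟨δb, Hb, Tb, hδb, hHb, hTb, HB⟩ := B2 hF hconc e he (by linarith)
  -- the parameters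
  obtain ⟨δc, hδc0, hδca, hδcb, hδc1⟩ : ∃ δc : ℝ, 0 < δc ∧ δc ≤ δa ∧ δc ≤ δb ∧ δc ≤ 1 :=
    ⟨min (min δa δb) 1, lt_min (lt_min hδa hδb) one_pos, (min_le_left _ _).trans (min_le_left _ _),
      (min_le_left _ _).trans (min_le_right _ _), min_le_right _ _⟩
  obtain ⟨δ, hδ0, hδ8, hδe⟩ : ∃ δ : ℝ, 0 < δ ∧ δ ≤ δc / 8 ∧ δ ≤ e :=
    ⟨min (δc / 8) e, lt_min (by positivity) he, min_le_left _ _, min_le_right _ _⟩
  refine ⟨δ, 2 * Ha + 2 * Hb, hδ0, by linarith, by positivity, fun H2 hH2 => ?_⟩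
  have hH20 : 0 < H2 := by linarith
  have hev : ∀ᶠ T : ℝ in atTop, max (max (2 / e) (10 * H2)) (H2 / δc) ≤ Real.log T ∧ 6 ≤ T ^ (δc / 2) ∧ 12 / e ≤ T ^ (1 / 2 : ℝ) := by
    have e1 := Real.tendsto_log_atTop.eventually_ge_atTop (max (max (2 / e) (10 * H2)) (H2 / δc))
    have e2 := (tendsto_rpow_atTop (show 0 < δc / 2 by positivity)).eventually_ge_atTop 6
    have e3 := (tendsto_rpow_atTop (show (0 : ℝ) < 1 / 2 by norm_num)).eventually_ge_atTop (12 / e)
    exact e1.and (e2.and e3)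
  obtain ⟨T1, hT1⟩ := eventually_atTop.1 hev
  refine ⟨max (max (2 * Ta) (2 * Tb)) (max T1 10), (le_max_right _ _).trans (le_max_right _ _), ?_⟩
  intro T hT h G hh hG K hK1 hK2 S hS r u hu1 hu2 V hV
  obtain ⟨g1, g2, g3⟩ := hT1 T ((le_max_left _ _).trans ((le_max_right _ _).trans hT))
  have hTTa : 2 * Ta ≤ T := (le_max_left _ _).trans ((le_max_left _ _).trans hT)
  have hTTb : 2 * Tb ≤ T := (le_max_right _ _).trans ((le_max_left _ _).trans hT)
  have hT10 : 10 ≤ T := (le_max_right _ _).trans ((le_max_right _ _).trans hT)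
  have hT0 : 0 < T := by linarith
  have hT1' : 1 ≤ T := by linarith
  obtain ⟨L, hL⟩ : ∃ L : ℝ, L = Real.log T := ⟨_, rfl⟩
  rw [← hL] at g1 hh hG
  have hL2e : 2 / e ≤ L := (le_max_left _ _).trans ((le_max_left _ _).trans g1)
  have hLH : 10 * H2 ≤ L := (le_max_right _ _).trans ((le_max_left _ _).trans g1)
  have hLδ : H2 / δc ≤ L := (le_max_right _ _).trans g1
  have heL2 : 2 ≤ e * L := by
    rw [div_le_iff₀ he] at hL2e
    linarith
  have hL0 : 0 < L := by
    have : 0 < 2 / e := by positivity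
    linarith
  have hh0 : 0 < h := by rw [hh]; positivity
  have hh1 : h ≤ 1 / 10 := by
    rw [hh, div_le_iff₀ hL0]
    linarith
  have hhδ : h ≤ δc := by
    rw [hh, div_le_iff₀ hL0]
    rw [div_le_iff₀ hδc0] at hLδ
    linarith
  have hhL : h * L = H2 := by rw [hh]; field_simp
  have hπ := Real.pi_pos
  have hw0 := w1_nonneg S r
  have hK0 : 0 < K := lt_of_lt_of_le (by positivity) hK1
  have hK12 : 12 / e ≤ K := by
    refine g3.trans (le_trans ?_ hK1)
    apply Real.rpow_le_rpow_of_exponent_le hT1'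
    linarith
  have h6h : 6 * h ≤ e * K := by
    rw [div_le_iff₀ he] at hK12
    linarith
  have hTp : T ≤ T ^ (1 + δ) := by
    nth_rewrite 1 [← Real.rpow_one T]
    exact Real.rpow_le_rpow_of_exponent_le hT1' (by linarith)
  have hG0 : 0 < G := by rw [hG]; positivity
  have huv0 : 0 ≤ h * L / Real.pi := by positivity
  set Z := Zf F 1 V with hZ
  -- the lower bound
  have X1 : T / 2 ≤ T + u + 3 * h := by linarith
  have X2 : T + u + 3 * h ≤ 3 * T ^ (1 + δ) := by linarith
  obtain ⟨l1, l2⟩ := logs hT10 hL (by linarith) he hδe X1 X2 heL2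
  obtain ⟨p1, p2⟩ := pows hT10 hδ0 hδ8 hδc1 g2 X1 X2
  have X10 : 1 ≤ T + u + 3 * h := by linarith
  have A := HA (T + u + 3 * h) (by linarith) h (by
      have : 0 < Real.log (T + u + 3 * h) := by nlinarith only [l1, hL0, he1]
      rw [div_le_iff₀ this]
      have h1 : h * ((1 - e) * L) ≤ h * Real.log (T + u + 3 * h) := mul_le_mul_of_nonneg_left l1 hh0.le
      have h2 : h * ((1 - e) * L) = (1 - e) * H2 := by rw [← hhL]; ring
      nlinarith only [h1, h2, hH2, hHa, hHb, he1, hH20]) (hhδ.trans hδca) (K - 6 * h) (by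
      have h1 : (T + u + 3 * h) ^ (1 - δa) ≤ (T + u + 3 * h) ^ (1 - δc) :=
        Real.rpow_le_rpow_of_exponent_le X10 (by linarith)
      have h2 : e * K ≤ K / 2 := by nlinarith only [hK0, he1]
      linarith) (by linarith) S (fun k hk => ⟨(hS k hk).1, ((hS k hk).2.trans p2).trans
        (Real.rpow_le_rpow_of_exponent_le X10 hδca)⟩) (sr r u) V (by linarith)
  rw [w1_sr] at A
  have A' : (q - 3 * e) * (K * w1 S r * (h * L / Real.pi)) ≤
      ∫ t in (T + 2 * h)..(T + K - 2 * h), ‖RP S r t‖ ^ 2 * cnt Z c h (t + u) := by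
    have e1 : ∫ t in (T + 2 * h)..(T + K - 2 * h), ‖RP S r t‖ ^ 2 * cnt Z c h (t + u) =
        ∫ t in (T + u + 3 * h - h)..(T + u + 3 * h + (K - 6 * h) + h), ‖RP S (sr r u) t‖ ^ 2 * cnt Z c h t := by
      have e2 := intervalIntegral.integral_comp_add_right (a := T + 2 * h) (b := T + K - 2 * h)
        (fun t => ‖RP S (sr r u) t‖ ^ 2 * cnt Z c h t) u
      simp only [RP_sr, add_sub_cancel_right] at e2
      rw [e2]
      simp only [RP_sr]
      congr 1 <;> ring
    rw [e1]
    refine le_trans ?_ A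
    have h1 : (1 - e) * K ≤ K - 6 * h := by linarith
    have h2 : (1 - e) * (h * L / Real.pi) ≤ h * Real.log (T + u + 3 * h) / Real.pi := by
      calc (1 - e) * (h * L / Real.pi) = h * ((1 - e) * L) / Real.pi := by ring
        _ ≤ _ := by gcongr
    have h3 : ((1 - e) * K) * w1 S r * ((1 - e) * (h * L / Real.pi)) ≤
        (K - 6 * h) * w1 S r * (h * Real.log (T + u + 3 * h) / Real.pi) := by
      apply mul_le_mul _ h2 (mul_nonneg (by linarith) huv0)
      · have : 0 ≤ (1 - e) * K := mul_nonneg (by linarith) hK0.le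
        exact mul_nonneg (by linarith) hw0
      · exact mul_le_mul_of_nonneg_right h1 hw0
    have h4 : (q - e) * (((1 - e) * K) * w1 S r * ((1 - e) * (h * L / Real.pi))) ≤
        (q - e) * ((K - 6 * h) * w1 S r * (h * Real.log (T + u + 3 * h) / Real.pi)) :=
      mul_le_mul_of_nonneg_left h3 (by linarith)
    refine le_trans ?_ h4
    have h5 : q - 3 * e ≤ (q - e) * ((1 - e) * (1 - e)) := by
      have h6 : 1 - 2 * e ≤ (1 - e) * (1 - e) := by nlinarith only [mul_pos he he]
      have h7 : (q - e) * (1 - 2 * e) ≤ (q - e) * ((1 - e) * (1 - e)) :=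
        mul_le_mul_of_nonneg_left h6 (by linarith only [hq, he1])
      nlinarith only [h7, hq1, he, mul_pos he he, mul_nonneg he.le (sub_nonneg.2 hq1)]
    calc (q - 3 * e) * (K * w1 S r * (h * L / Real.pi)) ≤
        ((q - e) * ((1 - e) * (1 - e))) * (K * w1 S r * (h * L / Real.pi)) :=
          mul_le_mul_of_nonneg_right h5 (by positivity)
      _ = _ := by ring
  -- large counts
  have Y1 : T / 2 ≤ T + u := by linarith
  have Y2 : T + u ≤ 3 * T ^ (1 + δ) := by linarith
  obtain ⟨l3, l4⟩ := logs hT10 hL (by linarith) he hδe Y1 Y2 heL2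
  obtain ⟨p3, p4⟩ := pows hT10 hδ0 hδ8 hδc1 g2 Y1 Y2
  have Y10 : 1 ≤ T + u := by linarith
  have Bb := HB (T + u) (by linarith) h (by
      have : 0 < Real.log (T + u) := by nlinarith only [l3, hL0, he1]
      rw [div_le_iff₀ this]
      have h1 : h * ((1 - e) * L) ≤ h * Real.log (T + u) := mul_le_mul_of_nonneg_left l3 hh0.le
      have h2 : h * ((1 - e) * L) = (1 - e) * H2 := by rw [← hhL]; ring
      nlinarith only [h1, h2, hH2, hHa, hHb, he1, hH20]) (hhδ.trans hδcb) K (by
      have h1 : (T + u) ^ (1 - δb) ≤ (T + u) ^ (1 - δc) :=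
        Real.rpow_le_rpow_of_exponent_le Y10 (by linarith)
      have h2 : 0 ≤ (T + u) ^ (1 - δc) := by positivity
      linarith) (by linarith) S (fun k hk => ⟨(hS k hk).1, ((hS k hk).2.trans p4).trans
        (Real.rpow_le_rpow_of_exponent_le Y10 hδcb)⟩) (sr r u) V (by linarith)
  rw [w1_sr] at Bb
  set nm : ℝ → ℝ := fun t => cnt Z (fun s => (mult F s : ℝ)) h t with hnm
  have mint : ∀ (y a b : ℝ), IntervalIntegrable (fun t => ‖RP S (sr r u) t‖ ^ 2 * max 0 (nm t - y)) volume a b := by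
    intro y a b
    have hf0 : ∀ t, 0 ≤ ‖RP S (sr r u) t‖ ^ 2 := fun t => sq_nonneg _
    have h1 : IntervalIntegrable (fun t => ‖RP S (sr r u) t‖ ^ 2 * nm t - ‖RP S (sr r u) t‖ ^ 2 * y) volume a b :=
      (cnt_int (RPc S _) Z _ h a b).sub (((RPc S _).mul continuous_const).intervalIntegrable _ _)
    have h2 : (fun t => ‖RP S (sr r u) t‖ ^ 2 * max 0 (nm t - y)) =
        fun t => max 0 (‖RP S (sr r u) t‖ ^ 2 * nm t - ‖RP S (sr r u) t‖ ^ 2 * y) := by
      funext t
      rw [mul_max_of_nonneg _ _ (hf0 t), mul_zero, mul_sub]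
    rw [h2]
    exact ⟨(integrable_zero _ _ _).sup h1.1, (integrable_zero _ _ _).sup h1.2⟩
  have hGy : (1 + e) * (h * Real.log (T + u) / Real.pi) ≤ G := by
    rw [hG]
    have h1 : h * Real.log (T + u) / Real.pi ≤ (1 + 2 * e) * (h * L / Real.pi) := by
      calc h * Real.log (T + u) / Real.pi ≤ h * ((1 + 2 * e) * L) / Real.pi := by gcongr
        _ = _ := by ring
    calc (1 + e) * (h * Real.log (T + u) / Real.pi) ≤ (1 + e) * ((1 + 2 * e) * (h * L / Real.pi)) :=
          mul_le_mul_of_nonneg_left h1 (by linarith)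
      _ = ((1 + e) * (1 + 2 * e)) * (h * L / Real.pi) := by ring
      _ ≤ (1 + 4 * e) * (h * L / Real.pi) := by
          apply mul_le_mul_of_nonneg_right _ huv0
          nlinarith only [he, he1]
  have B' : ∫ t in (T + 2 * h)..(T + K - 2 * h), ‖RP S r t‖ ^ 2 * max 0 (nm (t + u) - G) ≤
      2 * e * (K * w1 S r * (h * L / Real.pi)) := by
    have e1 : ∫ t in (T + 2 * h)..(T + K - 2 * h), ‖RP S r t‖ ^ 2 * max 0 (nm (t + u) - G) =
        ∫ t in (T + 2 * h + u)..(T + K - 2 * h + u), ‖RP S (sr r u) t‖ ^ 2 * max 0 (nm t - G) := by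
      have e2 := intervalIntegral.integral_comp_add_right (a := T + 2 * h) (b := T + K - 2 * h)
        (fun t => ‖RP S (sr r u) t‖ ^ 2 * max 0 (nm t - G)) u
      simp only [RP_sr, add_sub_cancel_right] at e2
      rw [e2]
      simp only [RP_sr]
    rw [e1]
    have h2 : T + 2 * h + u ≤ T + K - 2 * h + u := by
      have : e * K ≤ K := by nlinarith only [hK0, he1]
      linarith
    calc ∫ t in (T + 2 * h + u)..(T + K - 2 * h + u), ‖RP S (sr r u) t‖ ^ 2 * max 0 (nm t - G) ≤
        ∫ t in (T + 2 * h + u)..(T + K - 2 * h + u), ‖RP S (sr r u) t‖ ^ 2 *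
          max 0 (nm t - (1 + e) * (h * Real.log (T + u) / Real.pi)) := by
          apply intervalIntegral.integral_mono_on h2 (mint _ _ _) (mint _ _ _)
          intro t _
          apply mul_le_mul_of_nonneg_left _ (sq_nonneg _)
          apply max_le_max le_rfl
          linarith
      _ ≤ ∫ t in (T + u)..(T + u + K), ‖RP S (sr r u) t‖ ^ 2 *
          max 0 (nm t - (1 + e) * (h * Real.log (T + u) / Real.pi)) := by
          apply intervalIntegral.integral_mono_interval (by linarith) h2 (by linarith)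
          · exact Eventually.of_forall fun t => mul_nonneg (sq_nonneg _) (le_max_left _ _)
          · exact mint _ _ _
      _ ≤ e * (K * w1 S r * (h * Real.log (T + u) / Real.pi)) := Bb
      _ ≤ 2 * e * (K * w1 S r * (h * L / Real.pi)) := by
          have h3 : h * Real.log (T + u) / Real.pi ≤ 2 * (h * L / Real.pi) := by
            calc h * Real.log (T + u) / Real.pi ≤ h * ((1 + 2 * e) * L) / Real.pi := by gcongr
              _ = (1 + 2 * e) * (h * L / Real.pi) := by ring
              _ ≤ _ := by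
                  apply mul_le_mul_of_nonneg_right _ huv0
                  linarith
          calc e * (K * w1 S r * (h * Real.log (T + u) / Real.pi)) ≤ e * (K * w1 S r * (2 * (h * L / Real.pi))) := by
                gcongr
            _ = _ := by ring
  -- together
  have hab : T + 2 * h ≤ T + K - 2 * h := by
    have : e * K ≤ K := by nlinarith only [hK0, he1]
    linarith
  have hcle : ∀ t, cnt Z c h t ≤ nm t := by
    intro t
    simp only [hnm]
    unfold cnt
    refine Finset.sum_le_sum fun s hs => ?_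
    have hsz := (mem_Zf hF (le_refl (1 : ℝ))).1 hs
    apply mul_le_mul_of_nonneg_right
    · exact hcm s hsz.1 hsz.2.1 hsz.2.2.1 hsz.2.2.2.2
    · split_ifs <;> norm_num
  have i1 : IntervalIntegrable (fun t => ‖RP S r t‖ ^ 2 * cnt Z c h (t + u)) volume (T + 2 * h) (T + K - 2 * h) := by
    have := (cnt_int (RPc S (sr r u)) Z c h (T + 2 * h + u) (T + K - 2 * h + u)).comp_add_right u
    simp only [RP_sr, add_sub_cancel_right] at this
    exact this
  have i2 : IntervalIntegrable (fun t => ‖RP S r t‖ ^ 2 * max 0 (nm (t + u) - G)) volume (T + 2 * h) (T + K - 2 * h) := by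
    have := (mint G (T + 2 * h + u) (T + K - 2 * h + u)).comp_add_right u
    simp only [RP_sr, add_sub_cancel_right] at this
    exact this
  have i3 : IntervalIntegrable (fun t => ‖RP S r t‖ ^ 2 * (min (cnt Z c h (t + u)) G / G)) volume
      (T + 2 * h) (T + K - 2 * h) := by
    refine wint (RPc S r) ?_ (fun t => ?_) _ _
    · exact (((cnt_meas Z c h).comp (measurable_id.add_const u)).min measurable_const).div_const _
    · have h1 : 0 ≤ cnt Z c h (t + u) := cnt_nonneg hc0 h (t + u)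
      rw [abs_of_nonneg (div_nonneg (le_min h1 hG0.le) hG0.le), div_le_one hG0]
      exact min_le_right _ _
  have hmain : ∫ t in (T + 2 * h)..(T + K - 2 * h), (‖RP S r t‖ ^ 2 * cnt Z c h (t + u) -
      ‖RP S r t‖ ^ 2 * max 0 (nm (t + u) - G)) ≤
      ∫ t in (T + 2 * h)..(T + K - 2 * h), G * (‖RP S r t‖ ^ 2 * (min (cnt Z c h (t + u)) G / G)) := by
    apply intervalIntegral.integral_mono_on hab (i1.sub i2) (i3.const_mul G)
    intro t _
    have h1 : G * (‖RP S r t‖ ^ 2 * (min (cnt Z c h (t + u)) G / G)) = ‖RP S r t‖ ^ 2 * min (cnt Z c h (t + u)) G := by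
      field_simp
    rw [h1, ← mul_sub]
    apply mul_le_mul_of_nonneg_left _ (sq_nonneg _)
    have h2 := hcle (t + u)
    rcases le_total (cnt Z c h (t + u)) G with h3 | h3
    · rw [min_eq_left h3]
      have := le_max_left 0 (nm (t + u) - G)
      linarith
    · rw [min_eq_right h3]
      have := le_max_right 0 (nm (t + u) - G)
      linarith
  rw [intervalIntegral.integral_sub i1 i2, intervalIntegral.integral_const_mul] at hmain
  set J := ∫ t in (T + 2 * h)..(T + K - 2 * h), ‖RP S r t‖ ^ 2 * (min (cnt Z c h (t + u)) G / G) with hJ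
  have h7 : (q - 5 * e) * (K * w1 S r * (h * L / Real.pi)) ≤ G * J := by
    have : (q - 5 * e) * (K * w1 S r * (h * L / Real.pi)) = (q - 3 * e) * (K * w1 S r * (h * L / Real.pi)) -
      2 * e * (K * w1 S r * (h * L / Real.pi)) := by ring
    linarith
  have huv : 0 < h * L / Real.pi := by positivity
  have h8 : ((q - 5 * e) * (K * w1 S r)) * (h * L / Real.pi) ≤ ((1 + 4 * e) * J) * (h * L / Real.pi) := by
    calc _ = (q - 5 * e) * (K * w1 S r * (h * L / Real.pi)) := by ring
      _ ≤ G * J := h7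
      _ = _ := by rw [hG]; ring
  have h9 := le_of_mul_le_mul_right h8 huv
  have hKw : 0 ≤ K * w1 S r := by positivity
  have h10 : (1 + 4 * e) * ((q - 9 * e) * (K * w1 S r)) ≤ (1 + 4 * e) * J := by
    refine le_trans ?_ h9
    have h11 : (1 + 4 * e) * (q - 9 * e) ≤ q - 5 * e := by nlinarith only [hq1, he, mul_pos he he, mul_nonneg he.le (sub_nonneg.2 hq1)]
    calc (1 + 4 * e) * ((q - 9 * e) * (K * w1 S r)) = ((1 + 4 * e) * (q - 9 * e)) * (K * w1 S r) := by ring
      _ ≤ _ := mul_le_mul_of_nonneg_right h11 hKw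
  exact le_of_mul_le_mul_left h10 (by linarith)

end Pool.Agent.Run7.h609.CW
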